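import Mathlib

set_option autoImplicit false

namespace Pool.Agent.Helper844.RF

universe u

/-- linear algebra: countably many kernels of functionals forces finiteness -/
lemma finite_of_countable_kernels {F : Type*} [Field F] [Finite F] {Z : Type*} [AddCommGroup Z]
    [Module F Z] {C : Type*} [Countable C] (R : C → Submodule F Z → Prop)
    (huniq : ∀ c K K', R c K → R c K' → K = K')
    (hex : ∀ φ : Z →ₗ[F] F, φ ≠ 0 → ∃ c, R c (LinearMap.ker φ)) : Finite Z := by
  classical
  by_contra hinf
  have hnf : ¬ Module.Finite F Z := fun h => hinf (Module.finite_of_finite F)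
  let b := Module.Free.chooseBasis F Z
  let ι := Module.Free.ChooseBasisIndex F Z
  have hι : Infinite ι := by
    by_contra h
    rw [not_infinite_iff_finite] at h
    exact hnf (Module.Finite.of_basis b)
  let g : ℕ ↪ ι := Infinite.natEmbedding ι
  -- functional attached to a set of naturals
  let val : Set ℕ → ι → F := fun s i => if i = g 0 then 1 else
    if ∃ k ∈ s, g (k + 1) = i then 1 else 0
  let φ : Set ℕ → (Z →ₗ[F] F) := fun s => b.constr ℕ (val s)
  have hφ : ∀ s i, φ s (b i) = val s i := fun s i => by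
    simp only [φ, Module.Basis.constr_basis]
  have hne : ∀ s, φ s ≠ 0 := by
    intro s h
    have := hφ s (g 0)
    rw [h] at this
    simp [val] at this
  have hmem : ∀ s k, φ s (b (g (k + 1))) = if k ∈ s then 1 else 0 := by
    intro s k
    rw [hφ]
    have h0 : ¬ g (k + 1) = g 0 := by
      intro h
      exact absurd (g.injective h) (by omega)
    have h1 : (∃ k' ∈ s, g (k' + 1) = g (k + 1)) ↔ k ∈ s := by
      constructor
      · rintro ⟨k', hk', h⟩
        have : k' = k := by
          have := g.injective h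
          omega
        exact this ▸ hk'
      · intro h
        exact ⟨k, h, rfl⟩
    simp only [val, h0, h1, if_false]
  choose c hc using fun s => hex (φ s) (hne s)
  have hinj : Function.Injective c := by
    intro s t hst
    have h1 := hc s
    rw [hst] at h1
    have h2 := huniq _ _ _ h1 (hc t)
    ext k
    have h3 : b (g (k + 1)) ∈ LinearMap.ker (φ s) ↔ b (g (k + 1)) ∈ LinearMap.ker (φ t) := by
      rw [h2]
    rw [LinearMap.mem_ker, LinearMap.mem_ker, hmem, hmem] at h3
    by_cases hs : k ∈ s <;> by_cases ht : k ∈ t <;> simp [hs, ht] at h3 ⊢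
  obtain ⟨f, hf⟩ := exists_injective_nat C
  exact Function.cantor_injective (f ∘ c) (hf.comp hinj)

section
variable {F : Type u} [Field F] [Finite F] {A : Type u} [NonUnitalNonAssocRing A] [Module F A]

/-- codes of finite quotients with marked generators -/
abbrev Code (F : Type u) (n : Type u) : Type u :=
  Σ m : ℕ, (Fin m → Fin m → Fin m) × (Fin m → Fin m → Fin m) × (F → Fin m → Fin m) × (n → Fin m)

/-- the finite algebra map `ψ` has code `c` -/
def HasCode (s : Finset A) (c : Code F s) (B : Type u) [NonUnitalNonAssocRing B] [Module F B]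
    (ψ : A →ₙₐ[F] B) (e : B ≃ Fin c.1) : Prop :=
  (∀ x y, e (x * y) = c.2.1 (e x) (e y)) ∧ (∀ x y, e (x + y) = c.2.2.1 (e x) (e y)) ∧
  (∀ (r : F) x, e (r • x) = c.2.2.2.1 r (e x)) ∧ (∀ i : s, e (ψ i) = c.2.2.2.2 i)

lemma code_ker (s : Finset A)
    (hs : ∀ S : Submodule F A, (s : Set A) ⊆ S → (∀ x ∈ S, ∀ y ∈ S, x * y ∈ S) → S = ⊤)
    (c : Code F s) (B : Type u) [NonUnitalNonAssocRing B] [Module F B]
    (ψ : A →ₙₐ[F] B) (e : B ≃ Fin c.1) (h : HasCode s c B ψ e)
    (B' : Type u) [NonUnitalNonAssocRing B'] [Module F B']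
    (ψ' : A →ₙₐ[F] B') (e' : B' ≃ Fin c.1) (h' : HasCode s c B' ψ' e') (a : A) :
    ψ a = 0 → ψ' a = 0 := by
  obtain ⟨h1, h2, h3, h4⟩ := h
  obtain ⟨h1', h2', h3', h4'⟩ := h'
  let σ : B → B' := fun x => e'.symm (e x)
  have hmul : ∀ x y, σ (x * y) = σ x * σ y := by
    intro x y
    apply e'.injective
    simp only [σ, Equiv.apply_symm_apply, h1, h1']
  have hadd : ∀ x y, σ (x + y) = σ x + σ y := by
    intro x y
    apply e'.injective
    simp only [σ, Equiv.apply_symm_apply, h2, h2']
  have hsmul : ∀ (r : F) x, σ (r • x) = r • σ x := by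
    intro r x
    apply e'.injective
    simp only [σ, Equiv.apply_symm_apply, h3, h3']
  have h0 : σ 0 = 0 := by
    have := hadd 0 0
    rw [add_zero] at this
    exact left_eq_add.mp this
  have hgen : ∀ i : s, σ (ψ i) = ψ' i := by
    intro i
    apply e'.injective
    simp only [σ, Equiv.apply_symm_apply, h4, h4']
  let S : Submodule F A :=
    { carrier := {x | σ (ψ x) = ψ' x}
      add_mem' := by
        intro x y hx hy
        simp only [Set.mem_ofPred_eq, map_add, hadd] at *
        rw [hx, hy]
      zero_mem' := by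
        simp only [Set.mem_ofPred_eq, map_zero, h0]
      smul_mem' := by
        intro r x hx
        simp only [Set.mem_ofPred_eq, map_smul, hsmul] at *
        rw [hx] }
  have hS : S = ⊤ := by
    apply hs
    · intro x hx
      exact hgen ⟨x, hx⟩
    · intro x hx y hy
      change σ (ψ (x * y)) = ψ' (x * y)
      have hx' : σ (ψ x) = ψ' x := hx
      have hy' : σ (ψ y) = ψ' y := hy
      rw [map_mul, map_mul, hmul, hx', hy']
  intro ha
  have : a ∈ S := hS ▸ Submodule.mem_top
  have h5 : σ (ψ a) = ψ' a := this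
  rw [← h5, ha, h0]

/-- Core: if `Z` is a subspace of a finitely generated algebra `A` over a finite field such that
every hyperplane of `Z` is separated from the rest of `Z` by finite quotients, `Z` is finite. -/
theorem core (s : Finset A)
    (hs : ∀ S : Submodule F A, (s : Set A) ⊆ S → (∀ x ∈ S, ∀ y ∈ S, x * y ∈ S) → S = ⊤)
    (Z : Submodule F A)
    (hrf : ∀ K : Submodule F A, K ≤ Z → ∀ a, a ∉ K → ∃ (B : Type u) (_ : NonUnitalNonAssocRing B)
      (_ : Module F B) (_ : Finite B) (ψ : A →ₙₐ[F] B), (∀ x ∈ K, ψ x = 0) ∧ ψ a ≠ 0) :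
    Finite Z := by
  classical
  apply finite_of_countable_kernels (F := F) (C := Code F s)
    (fun c K => ∃ (B : Type u) (_ : NonUnitalNonAssocRing B) (_ : Module F B)
      (ψ : A →ₙₐ[F] B) (e : B ≃ Fin c.1), HasCode s c B ψ e ∧ ∀ x : Z, x ∈ K ↔ ψ x = 0)
  · rintro c K K' ⟨B, i1, i2, ψ, e, hc, hK⟩ ⟨B', i1', i2', ψ', e', hc', hK'⟩
    ext x
    rw [hK, hK']
    exact ⟨code_ker s hs c B ψ e hc B' ψ' e' hc' x, code_ker s hs c B' ψ' e' hc' B ψ e hc x⟩
  · intro φ hφ
    obtain ⟨z, hz⟩ : ∃ z, φ z ≠ 0 := by
      by_contra h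
      push Not at h
      exact hφ (LinearMap.ext h)
    let K : Submodule F A := (LinearMap.ker φ).map Z.subtype
    have hKZ : K ≤ Z := Submodule.map_subtype_le _ _
    have hzK : (z : A) ∉ K := by
      intro h
      obtain ⟨w, hw, hwz⟩ := h
      have : w = z := Subtype.ext hwz
      rw [this] at hw
      exact hz hw
    obtain ⟨B, i1, i2, i3, ψ, hψ, hψz⟩ := hrf K hKZ z hzK
    have := Fintype.ofFinite B
    let e : B ≃ Fin (Fintype.card B) := Fintype.equivFin B
    refine ⟨⟨Fintype.card B, fun x y => e (e.symm x * e.symm y),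
      fun x y => e (e.symm x + e.symm y), fun r x => e (r • e.symm x), fun i => e (ψ i)⟩,
      B, i1, i2, ψ, e, ⟨?_, ?_, ?_, ?_⟩, ?_⟩
    · intro x y; simp
    · intro x y; simp
    · intro r x; simp
    · intro i; rfl
    · intro x
      rw [LinearMap.mem_ker]
      constructor
      · intro hx
        exact hψ x ⟨x, hx, rfl⟩
      · intro hx
        by_contra hne
        -- z - (φ z / φ x) x ∈ ker φ
        have h1 : z - (φ z / φ x) • x ∈ LinearMap.ker φ := by
          rw [LinearMap.mem_ker, map_sub, map_smul, smul_eq_mul, div_mul_cancel₀ _ hne, sub_self]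
        have h2 := hψ _ ⟨_, h1, rfl⟩
        apply hψz
        have h3 : (z : A) = Z.subtype (z - (φ z / φ x) • x) + (φ z / φ x) • (x : A) := by
          simp
        rw [h3, map_add, h2, map_smul, hx, smul_zero, add_zero]

end

end Pool.Agent.Helper844.RF
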