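import Mathlib
import Pool.Agent.Helper844.RF.Core

/-! Definitions: varieties of associative algebras, residual finiteness. -/

set_option autoImplicit false

namespace Pool.Agent.Helper844.RF

universe u

variable {F : Type u} [Field F]

/-- The polynomial `f` is an identity of the not necessarily unital associative algebra `A`: all
its values at elements of `A` are zero (the values are computed in the algebra `F ⊕ A` with a unit
adjoined). -/
def IsIdentity (A : Type u) [NonUnitalRing A] [Module F A] [IsScalarTower F A A]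
    [SMulCommClass F A A] (f : FreeAlgebra F ℕ) : Prop :=
  ∀ v : ℕ → A, FreeAlgebra.lift F (fun i => (Unitization.inr (v i) : Unitization F A)) f = 0

/-- `A` lies in the variety defined by the set `I` of identities. -/
def InVariety (I : Set (FreeAlgebra F ℕ)) (A : Type u) [NonUnitalRing A] [Module F A]
    [IsScalarTower F A A] [SMulCommClass F A A] : Prop :=
  ∀ f ∈ I, IsIdentity A f

/-- `A` is finitely generated. -/
def FinGen (F : Type u) [Field F] (A : Type u) [NonUnitalRing A] [Module F A]
    [IsScalarTower F A A] [SMulCommClass F A A] : Prop :=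
  ∃ s : Finset A, NonUnitalAlgebra.adjoin F (s : Set A) = ⊤

/-- `A` is residually finite: every nonzero element survives under a homomorphism into a finite
algebra. -/
def ResiduallyFinite (F : Type u) [Field F] (A : Type u) [NonUnitalRing A] [Module F A]
    [IsScalarTower F A A] [SMulCommClass F A A] : Prop :=
  ∀ a : A, a ≠ 0 → ∃ (B : Type u) (_ : NonUnitalRing B) (_ : Module F B)
    (_ : IsScalarTower F B B) (_ : SMulCommClass F B B) (_ : Finite B)
    (φ : A →ₙₐ[F] B), φ a ≠ 0

/-- The variety defined by `I` is locally residually finite: all its finitely generated algebras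
are residually finite. -/
def LocallyResiduallyFinite (I : Set (FreeAlgebra F ℕ)) : Prop :=
  ∀ (A : Type u) [NonUnitalRing A] [Module F A] [IsScalarTower F A A] [SMulCommClass F A A],
    InVariety I A → FinGen F A → ResiduallyFinite F A

/-- The (two-sided) annihilator of `A`. -/
def annihilator (F : Type u) [Field F] (A : Type u) [NonUnitalRing A] [Module F A]
    [IsScalarTower F A A] [SMulCommClass F A A] : Submodule F A where
  carrier := {z | ∀ x, z * x = 0 ∧ x * z = 0}
  add_mem' := by
    intro a b ha hb x
    rw [add_mul, mul_add, (ha x).1, (ha x).2, (hb x).1, (hb x).2]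
    simp
  zero_mem' := by
    intro x
    simp
  smul_mem' := by
    intro r a ha x
    rw [smul_mul_assoc, mul_smul_comm, (ha x).1, (ha x).2]
    simp

section quot
variable {A : Type u} [NonUnitalRing A] [Module F A] [IsScalarTower F A A] [SMulCommClass F A A]

/-- the quotient by a subspace of the annihilator -/
def Q (K : Submodule F A) (_ : K ≤ annihilator F A) : Type u := A ⧸ K

variable (K : Submodule F A) (hK : K ≤ annihilator F A)

instance : AddCommGroup (Q K hK) := inferInstanceAs (AddCommGroup (A ⧸ K))
instance : Module F (Q K hK) := inferInstanceAs (Module F (A ⧸ K))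

/-- the quotient map -/
def mk : A →ₗ[F] Q K hK := K.mkQ

lemma mk_surj : Function.Surjective (mk K hK) := K.mkQ_surjective

lemma mk_eq_zero (a : A) : mk K hK a = 0 ↔ a ∈ K := Submodule.Quotient.mk_eq_zero K

instance : Mul (Q K hK) := ⟨fun x y => Quotient.liftOn₂' x y (fun a b => mk K hK (a * b)) (by
  intro a b a' b' ha hb
  have ha' : a - a' ∈ K := (Submodule.quotientRel_def K).mp ha
  have hb' : b - b' ∈ K := (Submodule.quotientRel_def K).mp hb
  have h1 : a * b = a' * b' := by
    have h2 := (hK ha' b).1
    have h3 := (hK hb' a').2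
    rw [sub_mul, sub_eq_zero] at h2
    rw [mul_sub, sub_eq_zero] at h3
    rw [h2, h3]
  simp only [h1])⟩

lemma mk_mul (a b : A) : mk K hK (a * b) = mk K hK a * mk K hK b := rfl

instance : NonUnitalRing (Q K hK) :=
  { (inferInstance : AddCommGroup (Q K hK)), (inferInstance : Mul (Q K hK)) with
    left_distrib := by
      intro x y z
      obtain ⟨a, rfl⟩ := mk_surj K hK x
      obtain ⟨b, rfl⟩ := mk_surj K hK y
      obtain ⟨c, rfl⟩ := mk_surj K hK z
      rw [← map_add, ← mk_mul, ← mk_mul, ← mk_mul, ← map_add, mul_add]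
    right_distrib := by
      intro x y z
      obtain ⟨a, rfl⟩ := mk_surj K hK x
      obtain ⟨b, rfl⟩ := mk_surj K hK y
      obtain ⟨c, rfl⟩ := mk_surj K hK z
      rw [← map_add, ← mk_mul, ← mk_mul, ← mk_mul, ← map_add, add_mul]
    zero_mul := by
      intro x
      obtain ⟨a, rfl⟩ := mk_surj K hK x
      rw [← map_zero (mk K hK), ← mk_mul, zero_mul]
    mul_zero := by
      intro x
      obtain ⟨a, rfl⟩ := mk_surj K hK x
      rw [← map_zero (mk K hK), ← mk_mul, mul_zero]
    mul_assoc := by
      intro x y z
      obtain ⟨a, rfl⟩ := mk_surj K hK x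
      obtain ⟨b, rfl⟩ := mk_surj K hK y
      obtain ⟨c, rfl⟩ := mk_surj K hK z
      rw [← mk_mul, ← mk_mul, ← mk_mul, ← mk_mul, mul_assoc] }

instance : IsScalarTower F (Q K hK) (Q K hK) := ⟨by
  intro r x y
  obtain ⟨a, rfl⟩ := mk_surj K hK x
  obtain ⟨b, rfl⟩ := mk_surj K hK y
  change (r • mk K hK a) * mk K hK b = r • (mk K hK a * mk K hK b)
  rw [← map_smul, ← mk_mul, ← mk_mul, ← map_smul, smul_mul_assoc]⟩

instance : SMulCommClass F (Q K hK) (Q K hK) := ⟨by
  intro r x y
  obtain ⟨a, rfl⟩ := mk_surj K hK x
  obtain ⟨b, rfl⟩ := mk_surj K hK y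
  change r • (mk K hK a * mk K hK b) = mk K hK a * (r • mk K hK b)
  rw [← map_smul, ← mk_mul, ← mk_mul, ← map_smul, mul_smul_comm]⟩

/-- the quotient map as a homomorphism -/
def mkHom : A →ₙₐ[F] Q K hK :=
  { toFun := mk K hK
    map_smul' := fun r x => map_smul (mk K hK) r x
    map_zero' := map_zero (mk K hK)
    map_add' := map_add (mk K hK)
    map_mul' := mk_mul K hK }

lemma mkHom_surj : Function.Surjective (mkHom K hK) := mk_surj K hK

lemma mkHom_eq_zero (a : A) : mkHom K hK a = 0 ↔ a ∈ K := mk_eq_zero K hK a

end quot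

section closure
variable {A B : Type u} [NonUnitalRing A] [Module F A] [IsScalarTower F A A] [SMulCommClass F A A]
  [NonUnitalRing B] [Module F B] [IsScalarTower F B B] [SMulCommClass F B B]

lemma map_lift (ψ : A →ₙₐ[F] B) (v : ℕ → A) (f : FreeAlgebra F ℕ) :
    Unitization.lift (NonUnitalAlgHom.comp (Unitization.inrNonUnitalAlgHom F B) ψ)
      (FreeAlgebra.lift F (fun i => (Unitization.inr (v i) : Unitization F A)) f) =
    FreeAlgebra.lift F (fun i => (Unitization.inr (ψ (v i)) : Unitization F B)) f := by
  have h : (Unitization.lift (NonUnitalAlgHom.comp (Unitization.inrNonUnitalAlgHom F B) ψ)).comp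
      (FreeAlgebra.lift F (fun i => (Unitization.inr (v i) : Unitization F A))) =
      FreeAlgebra.lift F (fun i => (Unitization.inr (ψ (v i)) : Unitization F B)) := by
    apply FreeAlgebra.hom_ext
    funext i
    simp
  exact DFunLike.congr_fun h f

lemma inVariety_of_surj (I : Set (FreeAlgebra F ℕ)) (ψ : A →ₙₐ[F] B)
    (hψ : Function.Surjective ψ) (hA : InVariety I A) : InVariety I B := by
  intro f hf w
  choose v hv using fun i => hψ (w i)
  have h := map_lift ψ v f
  rw [hA f hf v, map_zero] at h
  simp only [hv] at h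
  exact h.symm

lemma finGen_of_surj (ψ : A →ₙₐ[F] B)
    (hψ : Function.Surjective ψ) (hA : FinGen F A) : FinGen F B := by
  classical
  obtain ⟨s, hs⟩ := hA
  refine ⟨s.image ψ, ?_⟩
  rw [Finset.coe_image, ← NonUnitalAlgHom.map_adjoin, hs]
  rw [eq_top_iff]
  intro b _
  obtain ⟨a, rfl⟩ := hψ b
  exact ⟨a, trivial, rfl⟩

end closure

/-- In a locally residually finite variety over a finite field, finitely generated algebras have
finite annihilators. -/
theorem annihilator_finite [Finite F] (I : Set (FreeAlgebra F ℕ))
    (hI : LocallyResiduallyFinite I) (A : Type u) [NonUnitalRing A] [Module F A]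
    [IsScalarTower F A A] [SMulCommClass F A A] (hA : InVariety I A) (hfg : FinGen F A) :
    Finite (annihilator F A) := by
  classical
  obtain ⟨s, hs⟩ := id hfg
  apply core s
  · intro S hS hmul
    have h : NonUnitalAlgebra.adjoin F (s : Set A) ≤
        ({ S with mul_mem' := fun {a b} ha hb => hmul a ha b hb } : NonUnitalSubalgebra F A) :=
      NonUnitalAlgebra.adjoin_le hS
    rw [hs] at h
    rw [eq_top_iff]
    intro x _
    exact h (trivial : x ∈ (⊤ : NonUnitalSubalgebra F A))
  · intro K hK a ha
    have h := hI (Q K hK) (inVariety_of_surj I (mkHom K hK) (mkHom_surj K hK) hA)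
      (finGen_of_surj (mkHom K hK) (mkHom_surj K hK) hfg) (mkHom K hK a)
      (fun h => ha ((mkHom_eq_zero K hK a).mp h))
    obtain ⟨B, i1, i2, i3, i4, i5, φ, hφ⟩ := h
    refine ⟨B, inferInstance, inferInstance, i5, φ.comp (mkHom K hK), ?_, hφ⟩
    intro x hx
    change φ (mkHom K hK x) = 0
    rw [(mkHom_eq_zero K hK x).mpr hx, map_zero]

end Pool.Agent.Helper844.RF
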