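import Mathlib
import Pool.Agent.Helper844.RF.Assoc

/-! The form of the condition for identities. -/

set_option autoImplicit false

namespace Pool.Agent.Helper844.RF

universe u

variable {F : Type u} [Field F]

/-- the constant term of a noncommutative polynomial -/
noncomputable def constTerm {X : Type} : FreeAlgebra F X →ₐ[F] F :=
  FreeAlgebra.lift F (fun _ => (0 : F))

/-- The values of the polynomials from `I` at elements without constant term of the free algebra
on `n` generators. They generate the ideal of all identities in `n` variables that hold in the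
variety defined by `I`. -/
def values (I : Set (FreeAlgebra F ℕ)) (n : ℕ) : Set (FreeAlgebra F (Fin n)) :=
  {w | ∃ f ∈ I, ∃ s : ℕ → FreeAlgebra F (Fin n), (∀ i, constTerm (s i) = 0) ∧
    w = FreeAlgebra.lift F s f}

/-- All products of the polynomials `t j` with a variable, on the left or on the right. -/
def products {n : ℕ} (t : ℕ → FreeAlgebra F (Fin n)) : Set (FreeAlgebra F (Fin n)) :=
  {w | ∃ (j : ℕ) (i : Fin n), w = FreeAlgebra.ι F i * t j ∨ w = t j * FreeAlgebra.ι F i}

theorem sequence_form [Finite F] (I : Set (FreeAlgebra F ℕ)) (h0 : ∀ f ∈ I, constTerm f = 0)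
    (hI : LocallyResiduallyFinite I) (n : ℕ) (t : ℕ → FreeAlgebra F (Fin n))
    (ht : ∀ k, constTerm (t k) = 0) :
    ∃ k l, k < l ∧ t k - t l ∈ TwoSidedIdeal.span (values I n ∪ products t) := by
  classical
  let J := TwoSidedIdeal.span (values I n ∪ products t)
  let q : FreeAlgebra F (Fin n) →ₐ[F] J.ringCon.Quotient :=
    { J.ringCon.mk' with
      commutes' := fun r => rfl }
  have hq : ∀ y, q y = 0 ↔ y ∈ J := by
    intro y
    rw [TwoSidedIdeal.mem_iff]
    exact RingCon.eq (c := J.ringCon)
  let B : NonUnitalSubalgebra F J.ringCon.Quotient :=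
    { carrier := {x | ∃ u, constTerm u = 0 ∧ q u = x}
      add_mem' := by
        rintro _ _ ⟨u, hu, rfl⟩ ⟨v, hv, rfl⟩
        exact ⟨u + v, by rw [map_add, hu, hv, add_zero], map_add _ _ _⟩
      zero_mem' := ⟨0, map_zero _, map_zero _⟩
      mul_mem' := by
        rintro _ _ ⟨u, hu, rfl⟩ ⟨v, hv, rfl⟩
        exact ⟨u * v, by rw [map_mul, hu, zero_mul], map_mul _ _ _⟩
      smul_mem' := by
        rintro r _ ⟨u, hu, rfl⟩
        exact ⟨r • u, by rw [map_smul, hu, smul_zero], map_smul _ _ _⟩ }
  -- `B` lies in the variety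
  have hB : InVariety I B := by
    intro f hf v
    choose s hs hs' using fun i => (v i).2
    let Λ : Unitization F B →ₐ[F] J.ringCon.Quotient :=
      Unitization.lift (NonUnitalSubalgebraClass.subtype B)
    have hΛ : ∀ b : B, Λ (Unitization.inr b) = (b : J.ringCon.Quotient) := by
      intro b
      simp [Λ]
    have h1 : Λ.comp (FreeAlgebra.lift F (fun i => (Unitization.inr (v i) : Unitization F B))) =
        q.comp (FreeAlgebra.lift F s) := by
      apply FreeAlgebra.hom_ext
      funext i
      simp only [Function.comp_apply, AlgHom.comp_apply, FreeAlgebra.lift_ι_apply]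
      rw [hΛ, hs']
    have h2 : q (FreeAlgebra.lift F s f) = 0 := by
      rw [hq]
      exact TwoSidedIdeal.subset_span (Or.inl ⟨f, hf, s, hs, rfl⟩)
    have h3 := DFunLike.congr_fun h1 f
    rw [AlgHom.comp_apply, AlgHom.comp_apply, h2] at h3
    have h4 : (Unitization.fstHom F B).comp
        (FreeAlgebra.lift F (fun i => (Unitization.inr (v i) : Unitization F B))) =
        (constTerm : FreeAlgebra F ℕ →ₐ[F] F) := by
      apply FreeAlgebra.hom_ext
      funext i
      simp [constTerm]
    have h5 := DFunLike.congr_fun h4 f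
    rw [AlgHom.comp_apply, h0 f hf] at h5
    set w := FreeAlgebra.lift F (fun i => (Unitization.inr (v i) : Unitization F B)) f with hw
    have h6 : w = Unitization.inr w.snd := by
      apply Unitization.ext
      · rw [Unitization.fst_inr]
        exact h5
      · rw [Unitization.snd_inr]
    rw [h6, hΛ] at h3
    have h7 : w.snd = 0 := Subtype.ext h3
    rw [h6, h7, Unitization.inr_zero]
  -- generators
  have hι : ∀ i : Fin n, constTerm (FreeAlgebra.ι F i) = (0 : F) := by
    intro i
    simp [constTerm]
  let g : Fin n → B := fun i => ⟨q (FreeAlgebra.ι F i), FreeAlgebra.ι F i, hι i, rfl⟩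
  have hgen : ∀ N : NonUnitalSubalgebra F B, (∀ i, g i ∈ N) → N = ⊤ := by
    intro N hN
    have hcl : ∀ u : FreeAlgebra F (Fin n), ∃ b ∈ N, (b : J.ringCon.Quotient) =
        q u - algebraMap F _ (constTerm u) := by
      intro u
      induction u with
      | grade0 r =>
        refine ⟨0, zero_mem _, ?_⟩
        rw [AlgHom.commutes, AlgHom.commutes]
        simp
      | grade1 i =>
        refine ⟨g i, hN i, ?_⟩
        rw [hι, map_zero, sub_zero]
      | mul u v hu hv =>
        obtain ⟨b, hb, hb'⟩ := hu
        obtain ⟨c, hc, hc'⟩ := hv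
        refine ⟨b * c + (constTerm u • c + constTerm v • b),
          add_mem (mul_mem hb hc) (add_mem (N.smul_mem _ hc) (N.smul_mem _ hb)), ?_⟩
        have h1 : q u = b + algebraMap F _ (constTerm u) := by rw [hb']; abel
        have h2 : q v = c + algebraMap F _ (constTerm v) := by rw [hc']; abel
        rw [map_mul, map_mul, map_mul, h1, h2]
        push_cast
        rw [Algebra.smul_def, Algebra.smul_def, add_mul, mul_add, mul_add,
          ← Algebra.commutes (constTerm v) (b : J.ringCon.Quotient)]
        abel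
      | add u v hu hv =>
        obtain ⟨b, hb, hb'⟩ := hu
        obtain ⟨c, hc, hc'⟩ := hv
        refine ⟨b + c, add_mem hb hc, ?_⟩
        push_cast
        rw [hb', hc', map_add, map_add, map_add]
        abel
    rw [eq_top_iff]
    rintro ⟨_, u, hu, rfl⟩ _
    obtain ⟨b, hb, hb'⟩ := hcl u
    rw [hu, map_zero, sub_zero] at hb'
    have : b = ⟨q u, u, hu, rfl⟩ := Subtype.ext hb'
    rw [← this]
    exact hb
  have hfg : FinGen F B := by
    refine ⟨Finset.univ.image g, ?_⟩
    apply hgen
    intro i
    apply NonUnitalAlgebra.subset_adjoin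
    simp
  have hfin := annihilator_finite I hI B hB hfg
  -- the images of the polynomials `t k` lie in the annihilator
  have hz : ∀ k, (⟨q (t k), t k, ht k, rfl⟩ : B) ∈ annihilator F B := by
    intro k
    let z : B := ⟨q (t k), t k, ht k, rfl⟩
    let N : NonUnitalSubalgebra F B :=
      { carrier := {x | z * x = 0 ∧ x * z = 0}
        add_mem' := by
          rintro a b ⟨ha, ha'⟩ ⟨hb, hb'⟩
          exact ⟨by rw [mul_add, ha, hb, add_zero], by rw [add_mul, ha', hb', add_zero]⟩
        zero_mem' := ⟨mul_zero _, zero_mul _⟩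
        mul_mem' := by
          rintro a b ⟨ha, ha'⟩ ⟨hb, hb'⟩
          exact ⟨by rw [← mul_assoc, ha, zero_mul], by rw [mul_assoc, hb', mul_zero]⟩
        smul_mem' := by
          rintro r a ⟨ha, ha'⟩
          exact ⟨by rw [mul_smul_comm, ha, smul_zero], by rw [smul_mul_assoc, ha', smul_zero]⟩ }
    have hN : N = ⊤ := by
      apply hgen
      intro i
      constructor
      · apply Subtype.ext
        change q (t k) * q (FreeAlgebra.ι F i) = 0
        rw [← map_mul, hq]
        exact TwoSidedIdeal.subset_span (Or.inr ⟨k, i, Or.inr rfl⟩)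
      · apply Subtype.ext
        change q (FreeAlgebra.ι F i) * q (t k) = 0
        rw [← map_mul, hq]
        exact TwoSidedIdeal.subset_span (Or.inr ⟨k, i, Or.inl rfl⟩)
    intro x
    have : x ∈ N := hN ▸ (trivial : x ∈ (⊤ : NonUnitalSubalgebra F B))
    exact this
  let c : ℕ → annihilator F B := fun k => ⟨_, hz k⟩
  obtain ⟨k, l, hkl, hc⟩ := Finite.exists_ne_map_eq_of_infinite c
  have hc' : ∀ k l, c k = c l → t k - t l ∈ J := by
    intro k l h
    have h1 : q (t k) = q (t l) := congrArg (fun x : annihilator F B => ((x : B) : J.ringCon.Quotient)) h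
    rw [← hq, map_sub, h1, sub_self]
  rcases lt_or_gt_of_ne hkl with h | h
  · exact ⟨k, l, h, hc' k l hc⟩
  · exact ⟨l, k, h, hc' l k hc.symm⟩

/-- the Anan'in-type identities -/
theorem ananin_form [Finite F] (I : Set (FreeAlgebra F ℕ)) (h0 : ∀ f ∈ I, constTerm f = 0)
    (hI : LocallyResiduallyFinite I) :
    ∃ k l, k < l ∧
      FreeAlgebra.ι F 0 * FreeAlgebra.ι F 1 ^ k * FreeAlgebra.ι F 2 -
        FreeAlgebra.ι F 0 * FreeAlgebra.ι F 1 ^ l * FreeAlgebra.ι F 2 ∈
      TwoSidedIdeal.span (values I 3 ∪ products fun j : ℕ =>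
        FreeAlgebra.ι F (0 : Fin 3) * FreeAlgebra.ι F 1 ^ j * FreeAlgebra.ι F 2) := by
  apply sequence_form I h0 hI 3 (fun j : ℕ =>
        FreeAlgebra.ι F (0 : Fin 3) * FreeAlgebra.ι F 1 ^ j * FreeAlgebra.ι F 2)
  intro k
  simp [constTerm]

end Pool.Agent.Helper844.RF
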