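import Mathlib
import Pool.Agent.Helper844.RF.Assoc

/-! A finitely generated algebra with `x[y,z]t = 0` and an infinite annihilator. -/

set_option autoImplicit false

namespace Pool.Agent.Helper844.RF

universe u

open Polynomial

variable (F : Type u) [Field F]

/-- matrices with zero first column and zero last row -/
def U : NonUnitalSubalgebra F (Matrix (Fin 3) (Fin 3) F[X]) where
  carrier := {m | (∀ i, m i 0 = 0) ∧ ∀ j, m 2 j = 0}
  add_mem' := by
    rintro a b ⟨ha, ha'⟩ ⟨hb, hb'⟩
    exact ⟨fun i => by rw [Matrix.add_apply, ha, hb, add_zero],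
      fun j => by rw [Matrix.add_apply, ha', hb', add_zero]⟩
  zero_mem' := ⟨fun i => rfl, fun j => rfl⟩
  mul_mem' := by
    rintro a b ⟨ha, ha'⟩ ⟨hb, hb'⟩
    exact ⟨fun i => by rw [Matrix.mul_apply]; exact Finset.sum_eq_zero fun k _ => by rw [hb, mul_zero],
      fun j => by rw [Matrix.mul_apply]; exact Finset.sum_eq_zero fun k _ => by rw [ha', zero_mul]⟩
  smul_mem' := by
    rintro r a ⟨ha, ha'⟩
    exact ⟨fun i => by rw [Matrix.smul_apply, ha, smul_zero],
      fun j => by rw [Matrix.smul_apply, ha', smul_zero]⟩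

/-- the generators -/
noncomputable def gens : Finset (Matrix (Fin 3) (Fin 3) F[X]) := by
  classical
  exact {Matrix.single 0 1 1, Matrix.single 1 1 X, Matrix.single 1 2 1}

lemma mem_gens (m : Matrix (Fin 3) (Fin 3) F[X]) : m ∈ gens F ↔
    m = Matrix.single 0 1 1 ∨ m = Matrix.single 1 1 X ∨ m = Matrix.single 1 2 1 := by
  classical
  simp [gens]

/-- the algebra -/
noncomputable abbrev E : NonUnitalSubalgebra F (Matrix (Fin 3) (Fin 3) F[X]) :=
  NonUnitalAlgebra.adjoin F (gens F : Set (Matrix (Fin 3) (Fin 3) F[X]))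

lemma E_le : E F ≤ U F := by
  apply NonUnitalAlgebra.adjoin_le
  intro m hm
  rw [Finset.mem_coe, mem_gens] at hm
  rcases hm with rfl | rfl | rfl
  · constructor
    · intro i; simp [Matrix.single_apply]
    · intro i; simp [Matrix.single_apply]
  · constructor
    · intro i; simp [Matrix.single_apply]
    · intro i; simp [Matrix.single_apply]
  · constructor
    · intro i; simp [Matrix.single_apply]
    · intro i; simp [Matrix.single_apply]

lemma E_identity (x y z t : E F) : x * (y * z - z * y) * t = 0 := by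
  obtain ⟨hx, hx'⟩ := E_le F x.2
  obtain ⟨hy, hy'⟩ := E_le F y.2
  obtain ⟨hz, hz'⟩ := E_le F z.2
  obtain ⟨ht, ht'⟩ := E_le F t.2
  apply Subtype.ext
  push_cast
  ext1 i j
  have hc : ∀ k l, ((y : Matrix (Fin 3) (Fin 3) F[X]) * z - z * y) k l = 
      (y : Matrix (Fin 3) (Fin 3) F[X]) k 1 * (z : Matrix (Fin 3) (Fin 3) F[X]) 1 l -
      (z : Matrix (Fin 3) (Fin 3) F[X]) k 1 * (y : Matrix (Fin 3) (Fin 3) F[X]) 1 l := by
    intro k l
    rw [Matrix.sub_apply, Matrix.mul_apply, Matrix.mul_apply, Fin.sum_univ_three,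
      Fin.sum_univ_three, hy, hz, hy', hz']
    ring
  rw [Matrix.mul_apply, Fin.sum_univ_three, Matrix.mul_apply, Matrix.mul_apply, Matrix.mul_apply,
    Fin.sum_univ_three, Fin.sum_univ_three, Fin.sum_univ_three]
  simp only [hc, hx, hy, hz, hx', hy', hz', ht']
  simp only [Matrix.zero_apply]
  ring

lemma E_fg : FinGen F (E F) := by
  classical
  refine ⟨(gens F).attach.image fun m => ⟨m.1, NonUnitalAlgebra.subset_adjoin F m.2⟩, ?_⟩
  have h1 : Function.Injective (NonUnitalSubalgebraClass.subtype (E F)) := Subtype.val_injective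
  apply NonUnitalSubalgebra.map_injective h1
  rw [NonUnitalAlgHom.map_adjoin]
  have h2 : (NonUnitalSubalgebraClass.subtype (E F)) ''
      (((gens F).attach.image fun m => (⟨m.1, NonUnitalAlgebra.subset_adjoin F m.2⟩ : E F)) :
        Finset (E F)) = (gens F : Set (Matrix (Fin 3) (Fin 3) F[X])) := by
    ext m
    simp only [Finset.coe_image, Set.mem_image, Finset.mem_coe, Finset.mem_attach, true_and]
    constructor
    · rintro ⟨_, ⟨⟨m', hm'⟩, rfl⟩, rfl⟩
      exact hm'
    · intro hm
      exact ⟨_, ⟨⟨m, hm⟩, rfl⟩, rfl⟩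
  rw [h2]
  ext m
  constructor
  · intro hm
    exact ⟨⟨m, hm⟩, trivial, rfl⟩
  · rintro ⟨x, _, rfl⟩
    exact x.2

lemma mem_E (k : ℕ) : Matrix.single 0 2 (X ^ (k + 1)) ∈ E F := by
  classical
  have h1 : Matrix.single 0 1 1 ∈ E F :=
    NonUnitalAlgebra.subset_adjoin F ((mem_gens F _).mpr (Or.inl rfl))
  have h2 : Matrix.single 1 1 X ∈ E F :=
    NonUnitalAlgebra.subset_adjoin F ((mem_gens F _).mpr (Or.inr (Or.inl rfl)))
  have h3 : Matrix.single 1 2 1 ∈ E F :=
    NonUnitalAlgebra.subset_adjoin F ((mem_gens F _).mpr (Or.inr (Or.inr rfl)))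
  have h4 : ∀ k : ℕ, Matrix.single 0 1 (X ^ k) ∈ E F := by
    intro k
    induction k with
    | zero => rw [pow_zero]; exact h1
    | succ k ih =>
      have := mul_mem ih h2
      rw [Matrix.single_mul_single_same, ← pow_succ] at this
      exact this
  have h5 := mul_mem (h4 (k + 1)) h3
  rw [Matrix.single_mul_single_same, mul_one] at h5
  exact h5

lemma E_ann : ¬ Finite (annihilator F (E F)) := by
  classical
  intro hfin
  have hmem : ∀ k : ℕ, (⟨Matrix.single 0 2 (X ^ (k + 1)), mem_E F k⟩ : E F) ∈
      annihilator F (E F) := by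
    intro k x
    obtain ⟨hx, hx'⟩ := E_le F x.2
    constructor
    · apply Subtype.ext
      push_cast
      ext1 i j
      rw [Matrix.mul_apply, Fin.sum_univ_three, hx' j]
      simp [Matrix.single_apply]
    · apply Subtype.ext
      push_cast
      ext1 i j
      rw [Matrix.mul_apply, Fin.sum_univ_three, hx i]
      simp [Matrix.single_apply]
  have hinj : Function.Injective (fun k : ℕ => (⟨_, hmem k⟩ : annihilator F (E F))) := by
    intro k l h
    have h1 : Matrix.single (0 : Fin 3) (2 : Fin 3) (X ^ (k + 1) : F[X]) =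
        Matrix.single 0 2 (X ^ (l + 1)) :=
      congrArg (fun x : annihilator F (E F) => ((x : E F) : Matrix (Fin 3) (Fin 3) F[X])) h
    have h2 := congrFun (congrFun h1 0) 2
    rw [Matrix.single_apply_same, Matrix.single_apply_same] at h2
    have h3 := congrArg natDegree h2
    rw [natDegree_X_pow, natDegree_X_pow] at h3
    omega
  exact not_injective_infinite_finite _ hinj

/-- A locally residually finite variety over a finite field does not contain all algebras with
`x[y,z]t = 0`. -/
theorem not_contains [Finite F] (I : Set (FreeAlgebra F ℕ)) (hI : LocallyResiduallyFinite I) :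
    ∃ (A : Type u) (_ : NonUnitalRing A) (_ : Module F A) (_ : IsScalarTower F A A)
      (_ : SMulCommClass F A A), (∀ x y z t : A, x * (y * z - z * y) * t = 0) ∧
      ¬ InVariety I A := by
  refine ⟨E F, inferInstance, inferInstance, inferInstance, inferInstance, E_identity F, ?_⟩
  intro h
  exact E_ann F (annihilator_finite I hI (E F) h (E_fg F))

end Pool.Agent.Helper844.RF
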