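import Mathlib
import Pool.Agent.Helper844.RF.Core

/-! Varieties of groups whose finitely generated groups are residually finite. -/

set_option autoImplicit false

namespace Pool.Agent.Helper844.RFGroup

open Pool.Agent.Helper844.RF

/-- The group `G` lies in the variety defined by the set `W` of laws. -/
def InVariety (W : Set (FreeGroup ℕ)) (G : Type) [Group G] : Prop :=
  ∀ w ∈ W, ∀ v : ℕ → G, FreeGroup.lift v w = 1

/-- `G` is residually finite. -/
def ResiduallyFinite (G : Type) [Group G] : Prop :=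
  ∀ g : G, g ≠ 1 → ∃ N : Subgroup G, N.Normal ∧ N.FiniteIndex ∧ g ∉ N

/-- The variety defined by `W` is FG-residually finite: all its finitely generated groups are
residually finite. -/
def FGResiduallyFinite (W : Set (FreeGroup ℕ)) : Prop :=
  ∀ (G : Type) [Group G], InVariety W G → Group.FG G → ResiduallyFinite G

lemma countable_of_fg (G : Type) [Group G] (h : Group.FG G) : Countable G := by
  classical
  rw [Group.fg_iff_exists_freeGroup_hom_surjective] at h
  obtain ⟨S, hS, φ, hφ⟩ := h
  have hSc : Countable S := hS.countable.to_subtype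
  have h1 : Countable (FreeGroup S) :=
    Function.Surjective.countable (f := (FreeGroup.mk : List (S × Bool) → FreeGroup S))
      (fun x => ⟨x.toWord, FreeGroup.mk_toWord⟩)
  exact hφ.countable

/-- the subgroup generated by the `p`-th powers of the elements of `T` -/
def powers {G : Type} [Group G] (T : Subgroup G) (p : ℕ) : Subgroup G :=
  Subgroup.closure ((fun t => t ^ p) '' (T : Set G))

lemma normal_of_le_center {G : Type} [Group G] (K : Subgroup G) (hK : K ≤ Subgroup.center G) :
    K.Normal := ⟨fun n hn x => by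
    have h1 := Subgroup.mem_center_iff.mp (hK hn) x
    rw [h1, mul_assoc, mul_inv_cancel, mul_one]
    exact hn⟩

theorem core_group'' (G : Type) [Group G] (hfg : Group.FG G)
    (F : Type) [Field F] [Finite F] (hF : ∀ c : F, ∃ j : ℕ, (j : F) = c)
    (hrf : ∀ K : Subgroup G, K ≤ Subgroup.center G → ∀ g, g ∉ K →
      ∃ N : Subgroup G, N.Normal ∧ N.FiniteIndex ∧ K ≤ N ∧ g ∉ N)
    (T : Type) [CommGroup T] (ι : T →* G) (hι : ∀ t, ι t ∈ Subgroup.center G)
    (hinj : Function.Injective ι) (V : Type) [AddCommGroup V] [Module F V]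
    (m : T →* Multiplicative V) (hm : Function.Surjective m) : Finite V := by
  classical
  have hcount := countable_of_fg G hfg
  apply finite_of_countable_kernels (F := F) (Z := V) (C := Finset G)
    (fun c K => ∀ z : T, (m z).toAdd ∈ K ↔ ι z ∈ Subgroup.closure (c : Set G))
  · intro c K K' hK hK'
    ext x
    obtain ⟨z, hz⟩ := hm (Multiplicative.ofAdd x)
    have h1 : x = (m z).toAdd := by rw [hz]; rfl
    rw [h1, hK, hK']
  · intro φ hφ
    let f : T →* Multiplicative F := (AddMonoidHom.toMultiplicative φ.toAddMonoidHom).comp m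
    have hf : ∀ z, f z = 1 ↔ φ (m z).toAdd = 0 := by
      intro z
      change Multiplicative.ofAdd (φ (m z).toAdd) = 1 ↔ _
      exact ofAdd_eq_one
    obtain ⟨z0, hz0⟩ : ∃ z0, f z0 ≠ 1 := by
      by_contra h
      push Not at h
      apply hφ
      apply LinearMap.ext
      intro x
      obtain ⟨z, hz⟩ := hm (Multiplicative.ofAdd x)
      have h1 : x = (m z).toAdd := by rw [hz]; rfl
      rw [h1, (hf z).mp (h z)]
      rfl
    let K : Subgroup G := f.ker.map ι
    have hKc : K ≤ Subgroup.center G := by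
      rintro _ ⟨z, _, rfl⟩
      exact hι z
    have hK : ∀ z : T, ι z ∈ K ↔ f z = 1 := by
      intro z
      constructor
      · rintro ⟨w, hw, hw'⟩
        have h1 : w = z := hinj hw'
        rw [← h1]
        exact hw
      · intro h
        exact ⟨z, h, rfl⟩
    obtain ⟨N, hN, hNf, hKN, hz0N⟩ := hrf K hKc _ (fun h => hz0 ((hK z0).mp h))
    have hNfg : N.FG := by
      rw [← Group.fg_iff_subgroup_fg]
      exact Subgroup.fg_of_index_ne_zero N
    obtain ⟨c, hc⟩ := hNfg
    refine ⟨c, ?_⟩
    intro z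
    rw [LinearMap.mem_ker, ← hf, hc]
    constructor
    · intro h
      exact hKN ((hK z).mpr h)
    · intro hz
      by_contra hne
      apply hz0N
      have hne' : φ (m z).toAdd ≠ 0 := fun h => hne ((hf z).mpr h)
      obtain ⟨j, hj⟩ := hF (φ (m z0).toAdd / φ (m z).toAdd)
      have h1 : f (z0 * (z ^ j)⁻¹) = 1 := by
        rw [hf, map_mul, map_inv, map_pow, toAdd_mul, toAdd_inv, toAdd_pow, map_add, map_neg,
          map_nsmul, nsmul_eq_mul, hj, div_mul_cancel₀ _ hne']
        ring
      have h2 := hKN ((hK _).mpr h1)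
      rw [map_mul, map_inv, map_pow] at h2
      have h3 := N.mul_mem h2 (N.pow_mem hz j)
      simpa using h3

theorem core_group' (G : Type) [Group G] (hfg : Group.FG G) (p : ℕ) [Fact p.Prime]
    (hrf : ∀ K : Subgroup G, K ≤ Subgroup.center G → ∀ g, g ∉ K →
      ∃ N : Subgroup G, N.Normal ∧ N.FiniteIndex ∧ K ≤ N ∧ g ∉ N)
    (T : Type) [CommGroup T] (ι : T →* G) (hι : ∀ t, ι t ∈ Subgroup.center G)
    (hinj : Function.Injective ι) (P : Subgroup T) (hP : ∀ t : T, t ^ p ∈ P) :
    Finite (T ⧸ P) := by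
  classical
  have hmod : ∀ x : Additive (T ⧸ P), p • x = 0 := by
    intro x
    obtain ⟨z, hz⟩ := QuotientGroup.mk_surjective (x.toMul)
    have h1 : x = Additive.ofMul (QuotientGroup.mk z : T ⧸ P) := by rw [hz]; rfl
    rw [h1, ← ofMul_pow, ← QuotientGroup.mk_pow]
    have h2 : ((z ^ p : T) : T ⧸ P) = 1 := by
      rw [QuotientGroup.eq_one_iff]
      exact hP z
    rw [h2]
    rfl
  let inst : Module (ZMod p) (Additive (T ⧸ P)) := AddCommGroup.zmodModule hmod
  exact @core_group'' G _ hfg (ZMod p) _ _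
    (fun c => ⟨c.val, ZMod.natCast_zmod_val c⟩) hrf T _ ι hι hinj (Additive (T ⧸ P)) _ inst
    { toFun := fun z => Multiplicative.ofAdd (Additive.ofMul (QuotientGroup.mk z : T ⧸ P))
      map_one' := rfl
      map_mul' := fun _ _ => rfl }
    (fun x => by
      obtain ⟨z, hz⟩ := QuotientGroup.mk_surjective (x.toAdd.toMul)
      refine ⟨z, ?_⟩
      change Multiplicative.ofAdd (Additive.ofMul (QuotientGroup.mk z : T ⧸ P)) = x
      rw [hz]
      rfl)

theorem core_group (G : Type) [Group G] (hfg : Group.FG G) (p : ℕ) [Fact p.Prime]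
    (hrf : ∀ K : Subgroup G, K ≤ Subgroup.center G → ∀ g, g ∉ K →
      ∃ N : Subgroup G, N.Normal ∧ N.FiniteIndex ∧ K ≤ N ∧ g ∉ N)
    (T : Subgroup G) (hT : T ≤ Subgroup.center G) :
    Finite (T ⧸ (powers T p).subgroupOf T) := by
  let inst : CommGroup T :=
    { (inferInstance : Group T) with
      mul_comm := fun a b => Subtype.ext (Subgroup.mem_center_iff.mp (hT b.2) a) }
  exact @core_group' G _ hfg p _ hrf T inst T.subtype (fun t => hT t.2) Subtype.val_injective
    ((powers T p).subgroupOf T) (fun t => Subgroup.subset_closure ⟨t, t.2, rfl⟩)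

lemma inVariety_of_surj {G H : Type} [Group G] [Group H] (W : Set (FreeGroup ℕ)) (ψ : G →* H)
    (hψ : Function.Surjective ψ) (hG : InVariety W G) : InVariety W H := by
  intro f hf w
  choose v hv using fun i => hψ (w i)
  have h1 : ψ.comp (FreeGroup.lift v) = FreeGroup.lift w := by
    apply FreeGroup.ext_hom
    intro i
    simp [hv]
  rw [← h1, MonoidHom.comp_apply, hG f hf v, map_one]

lemma separate (W : Set (FreeGroup ℕ)) (hW : FGResiduallyFinite W) (G : Type) [Group G]
    (hG : InVariety W G) (hfg : Group.FG G) (K : Subgroup G) (hK : K ≤ Subgroup.center G)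
    (g : G) (hg : g ∉ K) :
    ∃ N : Subgroup G, N.Normal ∧ N.FiniteIndex ∧ K ≤ N ∧ g ∉ N := by
  have hKn : K.Normal := normal_of_le_center K hK
  have h1 := hW (G ⧸ K) (inVariety_of_surj W (QuotientGroup.mk' K)
    (QuotientGroup.mk'_surjective K) hG) (Group.fg_of_surjective (QuotientGroup.mk'_surjective K))
    (QuotientGroup.mk' K g) (fun h => hg ((QuotientGroup.eq_one_iff g).mp h))
  obtain ⟨N, hN, hNf, hgN⟩ := h1
  refine ⟨N.comap (QuotientGroup.mk' K), inferInstance, ⟨?_⟩, ?_, hgN⟩
  · rw [Subgroup.index_comap_of_surjective _ (QuotientGroup.mk'_surjective K)]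
    exact hNf.index_ne_zero
  intro x hx
  change QuotientGroup.mk' K x ∈ N
  have h2 : QuotientGroup.mk' K x = 1 := (QuotientGroup.eq_one_iff x).mpr hx
  rw [h2]
  exact N.one_mem

/-- central subgroups: finite quotients modulo `p`-th powers -/
theorem central_finite (W : Set (FreeGroup ℕ)) (hW : FGResiduallyFinite W) (G : Type) [Group G]
    (hG : InVariety W G) (hfg : Group.FG G) (p : ℕ) (hp : p.Prime)
    (T : Subgroup G) (hT : T ≤ Subgroup.center G) :
    Finite (T ⧸ (powers T p).subgroupOf T) := by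
  have : Fact p.Prime := ⟨hp⟩
  exact core_group G hfg p (separate W hW G hG hfg) T hT

/-- central subgroups: no divisible quotients -/
theorem central_not_divisible (W : Set (FreeGroup ℕ)) (hW : FGResiduallyFinite W) (G : Type)
    [Group G] (hG : InVariety W G) (hfg : Group.FG G) (T K : Subgroup G)
    (hT : T ≤ Subgroup.center G) (hKT : K ≤ T)
    (hdiv : ∀ z ∈ T, ∀ m : ℕ, 0 < m → ∃ w ∈ T, z * (w ^ m)⁻¹ ∈ K) : K = T := by
  apply le_antisymm hKT
  intro z hz
  by_contra hzK
  obtain ⟨N, hN, hNf, hKN, hzN⟩ := separate W hW G hG hfg K (hKT.trans hT) z hzK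
  obtain ⟨w, _, hw⟩ := hdiv z hz N.index (Nat.pos_of_ne_zero hNf.index_ne_zero)
  apply hzN
  have h3 := N.mul_mem (hKN hw) (Subgroup.pow_index_mem N w)
  simpa using h3

/-- The values of the laws from `W` in the free group on `n` generators; they generate the verbal
subgroup. -/
def values (W : Set (FreeGroup ℕ)) (n : ℕ) : Set (FreeGroup (Fin n)) :=
  {u | ∃ w ∈ W, ∃ s : ℕ → FreeGroup (Fin n), u = FreeGroup.lift s w}

/-- All commutators `[x_i, t j]` of the generators with the words `t j`, and the `p`-th powers of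
the words `t j`. -/
def products (p : ℕ) {n : ℕ} (t : ℕ → FreeGroup (Fin n)) : Set (FreeGroup (Fin n)) :=
  {u | ∃ j : ℕ, (∃ i : Fin n, u = FreeGroup.of i * t j * (FreeGroup.of i)⁻¹ * (t j)⁻¹) ∨ u = t j ^ p}

theorem sequence_form (W : Set (FreeGroup ℕ)) (hW : FGResiduallyFinite W) (p : ℕ)
    (hp : p.Prime) (n : ℕ) (t : ℕ → FreeGroup (Fin n)) :
    ∃ k l, k < l ∧ t k * (t l)⁻¹ ∈ Subgroup.normalClosure (values W n ∪ products p t) := by
  classical
  let R := Subgroup.normalClosure (values W n ∪ products p t)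
  let G := FreeGroup (Fin n) ⧸ R
  let q : FreeGroup (Fin n) →* G := QuotientGroup.mk' R
  have hqs : Function.Surjective q := QuotientGroup.mk'_surjective R
  have hq : ∀ x, q x = 1 ↔ x ∈ R := fun x => QuotientGroup.eq_one_iff x
  have hG : InVariety W G := by
    intro w hw v
    choose s hs using fun i => hqs (v i)
    have h1 : q.comp (FreeGroup.lift s) = FreeGroup.lift v := by
      apply FreeGroup.ext_hom
      intro i
      simp [hs]
    rw [← h1, MonoidHom.comp_apply, hq]
    exact Subgroup.subset_normalClosure (Or.inl ⟨w, hw, s, rfl⟩)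
  have hfg : Group.FG G := Group.fg_of_surjective hqs
  have hz : ∀ k, q (t k) ∈ Subgroup.center G := by
    intro k
    rw [Subgroup.mem_center_iff]
    let N : Subgroup (FreeGroup (Fin n)) := (Subgroup.centralizer {q (t k)}).comap q
    have hN : N = ⊤ := by
      rw [eq_top_iff, ← FreeGroup.closure_range_of, Subgroup.closure_le]
      rintro _ ⟨i, rfl⟩
      change q (FreeGroup.of i) ∈ Subgroup.centralizer {q (t k)}
      rw [Subgroup.mem_centralizer_singleton_iff]
      have h1 : FreeGroup.of i * t k * (FreeGroup.of i)⁻¹ * (t k)⁻¹ ∈ R :=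
        Subgroup.subset_normalClosure (Or.inr ⟨k, Or.inl ⟨i, rfl⟩⟩)
      rw [← hq, map_mul, map_mul, map_mul, map_inv, map_inv, mul_inv_eq_one,
        mul_inv_eq_iff_eq_mul] at h1
      exact h1
    intro x
    obtain ⟨x, rfl⟩ := hqs x
    have h1 : x ∈ N := hN ▸ Subgroup.mem_top x
    have h2 : q x ∈ Subgroup.centralizer {q (t k)} := h1
    rw [Subgroup.mem_centralizer_singleton_iff] at h2
    exact h2
  let T : Subgroup G := Subgroup.closure (Set.range fun k => q (t k))
  have hT : T ≤ Subgroup.center G := by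
    rw [Subgroup.closure_le]
    rintro _ ⟨k, rfl⟩
    exact hz k
  have hpow : ∀ z ∈ T, z ^ p = 1 := by
    intro z hzT
    induction hzT using Subgroup.closure_induction with
    | mem x hx =>
      obtain ⟨k, rfl⟩ := hx
      change q (t k) ^ p = 1
      rw [← map_pow, hq]
      exact Subgroup.subset_normalClosure (Or.inr ⟨k, Or.inr rfl⟩)
    | one => exact one_pow p
    | mul x y hx hy hx' hy' =>
      have hc : Commute x y := Subgroup.mem_center_iff.mp (hT hy) x
      rw [hc.mul_pow, hx', hy', mul_one]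
    | inv x hx hx' => rw [inv_pow, hx', inv_one]
  have hP : powers T p = ⊥ := by
    rw [eq_bot_iff, powers, Subgroup.closure_le]
    rintro _ ⟨z, hzT, rfl⟩
    exact hpow z hzT
  have hfin := central_finite W hW G hG hfg p hp T hT
  have hTfin : Finite T := by
    apply Finite.of_injective
      (fun z : T => (QuotientGroup.mk z : T ⧸ (powers T p).subgroupOf T))
    intro z w h
    have h1 := QuotientGroup.eq.mp h
    have h2 : ((z⁻¹ * w : T) : G) ∈ powers T p := h1
    rw [hP, Subgroup.mem_bot] at h2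
    have h3 : z⁻¹ * w = 1 := Subtype.ext h2
    exact inv_mul_eq_one.mp h3
  let c : ℕ → T := fun k => ⟨q (t k), Subgroup.subset_closure ⟨k, rfl⟩⟩
  obtain ⟨k, l, hkl, hc⟩ := Finite.exists_ne_map_eq_of_infinite c
  have hc' : ∀ k l, c k = c l → t k * (t l)⁻¹ ∈ R := by
    intro k l h
    have h1 : q (t k) = q (t l) := congrArg (fun x : T => (x : G)) h
    rw [← hq, map_mul, map_inv, h1, mul_inv_cancel]
  rcases lt_or_gt_of_ne hkl with h | h
  · exact ⟨k, l, h, hc' k l hc⟩
  · exact ⟨l, k, h, hc' l k hc.symm⟩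

end Pool.Agent.Helper844.RFGroup
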