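import Mathlib
import Pool.Agent.Helper844.RF.Core

/-! Varieties of Lie algebras over a finite field, local residual finiteness. -/

set_option autoImplicit false

namespace Pool.Agent.Helper844.RFLie

open Pool.Agent.Helper844.RF

universe u

variable {F : Type u} [Field F]

/-- The Lie algebra `L` lies in the variety defined by the set `I` of identities: all values of
the Lie polynomials `f ∈ I` in `L` are zero. -/
def InVariety (I : Set (FreeLieAlgebra F ℕ)) (L : Type u) [LieRing L] [LieAlgebra F L] : Prop :=
  ∀ f ∈ I, ∀ v : ℕ → L, FreeLieAlgebra.lift F v f = 0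

/-- `L` is finitely generated. -/
def FinGen (F : Type u) [Field F] (L : Type u) [LieRing L] [LieAlgebra F L] : Prop :=
  ∃ s : Finset L, LieSubalgebra.lieSpan F L (s : Set L) = ⊤

/-- `L` is residually finite: every nonzero element survives under a homomorphism into a finite
Lie algebra. -/
def ResiduallyFinite (F : Type u) [Field F] (L : Type u) [LieRing L] [LieAlgebra F L] : Prop :=
  ∀ a : L, a ≠ 0 → ∃ (B : Type u) (_ : LieRing B) (_ : LieAlgebra F B) (_ : Finite B)
    (φ : L →ₗ⁅F⁆ B), φ a ≠ 0

/-- The variety defined by `I` is locally residually finite: all its finitely generated algebras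
are residually finite. -/
def LocallyResiduallyFinite (I : Set (FreeLieAlgebra F ℕ)) : Prop :=
  ∀ (L : Type u) [LieRing L] [LieAlgebra F L],
    InVariety I L → FinGen F L → ResiduallyFinite F L

section closure
variable {L M : Type u} [LieRing L] [LieAlgebra F L] [LieRing M] [LieAlgebra F M]

lemma lift_comp {X : Type} (ψ : L →ₗ⁅F⁆ M) (v : X → L) (f : FreeLieAlgebra F X) :
    ψ (FreeLieAlgebra.lift F v f) = FreeLieAlgebra.lift F (fun i => ψ (v i)) f := by
  have h : ψ.comp (FreeLieAlgebra.lift F v) = FreeLieAlgebra.lift F (fun i => ψ (v i)) := by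
    apply FreeLieAlgebra.hom_ext
    intro i
    simp
  exact DFunLike.congr_fun h f

lemma inVariety_of_surj (I : Set (FreeLieAlgebra F ℕ)) (ψ : L →ₗ⁅F⁆ M)
    (hψ : Function.Surjective ψ) (hL : InVariety I L) : InVariety I M := by
  intro f hf w
  choose v hv using fun i => hψ (w i)
  have h := lift_comp ψ v f
  rw [hL f hf v, map_zero] at h
  simp only [hv] at h
  exact h.symm

/-- generation in terms of closed subspaces -/
lemma finGen_iff_closed (s : Set L) : LieSubalgebra.lieSpan F L s = ⊤ ↔
    ∀ N : LieSubalgebra F L, s ⊆ N → N = ⊤ := by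
  constructor
  · intro h N hN
    rw [eq_top_iff, ← h]
    exact LieSubalgebra.lieSpan_le.mpr hN
  · intro h
    exact h _ LieSubalgebra.subset_lieSpan

lemma finGen_of_surj (ψ : L →ₗ⁅F⁆ M) (hψ : Function.Surjective ψ) (hL : FinGen F L) :
    FinGen F M := by
  classical
  obtain ⟨s, hs⟩ := hL
  refine ⟨s.image ψ, ?_⟩
  rw [finGen_iff_closed] at hs ⊢
  intro N hN
  have h := hs (N.comap ψ) (by
    intro x hx
    change ψ x ∈ N
    exact hN (by simpa using ⟨x, hx, rfl⟩))
  rw [eq_top_iff]
  intro m _
  obtain ⟨x, rfl⟩ := hψ m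
  have : x ∈ N.comap ψ := h ▸ LieSubalgebra.mem_top x
  exact this

/-- the quotient map as a homomorphism of Lie algebras -/
def quot (K : LieIdeal F L) : L →ₗ⁅F⁆ L ⧸ K :=
  { (LieSubmodule.Quotient.mk' K : L →ₗ[F] L ⧸ K) with
    map_lie' := fun {_ _} => rfl }

lemma quot_surj (K : LieIdeal F L) : Function.Surjective (quot K) :=
  LieSubmodule.Quotient.surjective_mk' K

lemma quot_eq_zero (K : LieIdeal F L) (x : L) : quot K x = 0 ↔ x ∈ K := by
  change LieSubmodule.Quotient.mk' K x = 0 ↔ _
  exact LieSubmodule.Quotient.mk_eq_zero (N := K) (m := x)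

end closure

/-- In a locally residually finite variety over a finite field, finitely generated algebras have
finite centres. -/
theorem center_finite [Finite F] (I : Set (FreeLieAlgebra F ℕ))
    (hI : LocallyResiduallyFinite I) (L : Type u) [LieRing L] [LieAlgebra F L]
    (hL : InVariety I L) (hfg : FinGen F L) : Finite (LieAlgebra.center F L) := by
  classical
  obtain ⟨s, hs⟩ := id hfg
  rw [finGen_iff_closed] at hs
  refine core (F := F) (A := CommutatorRing L) s ?_
    ((LieAlgebra.center F L : LieIdeal F L) : Submodule F L) ?_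
  · intro S hS hmul
    have h := hs ({ S with lie_mem' := fun {a b} ha hb => hmul a ha b hb } : LieSubalgebra F L) hS
    rw [eq_top_iff]
    intro x _
    have : (x : L) ∈ ({ S with lie_mem' := fun {a b} ha hb => hmul a ha b hb } :
      LieSubalgebra F L) := h ▸ LieSubalgebra.mem_top (R := F) (L := L) x
    exact this
  · intro K hK a ha
    let K' : LieIdeal F L :=
      { (K : Submodule F L) with
        lie_mem := by
          intro x m hm
          have h1 : m ∈ LieAlgebra.center F L := hK hm
          have h2 : ⁅x, m⁆ = 0 := by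
            rw [LieModule.mem_maxTrivSubmodule] at h1
            exact h1 x
          rw [h2]
          exact K.zero_mem }
    have h := hI (L ⧸ K') (inVariety_of_surj I (quot K') (quot_surj K') hL)
      (finGen_of_surj (quot K') (quot_surj K') hfg) (quot K' a)
      (fun h => ha ((quot_eq_zero K' a).mp h))
    obtain ⟨B, i1, i2, i3, φ, hφ⟩ := h
    refine ⟨CommutatorRing B, inferInstance, inferInstance, i3,
      LieHom.toNonUnitalAlgHom (φ.comp (quot K')), ?_, hφ⟩
    intro x hx
    change φ (quot K' x) = 0
    rw [(quot_eq_zero K' x).mpr hx, map_zero]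

/-- The values of the Lie polynomials from `I` in the free Lie algebra on `n` generators; they
generate the verbal ideal. -/
def values (I : Set (FreeLieAlgebra F ℕ)) (n : ℕ) : Set (FreeLieAlgebra F (Fin n)) :=
  {w | ∃ f ∈ I, ∃ s : ℕ → FreeLieAlgebra F (Fin n), w = FreeLieAlgebra.lift F s f}

/-- All commutators `[x_i, t j]` of variables with the elements `t j`. -/
def products {n : ℕ} (t : ℕ → FreeLieAlgebra F (Fin n)) : Set (FreeLieAlgebra F (Fin n)) :=
  {w | ∃ (j : ℕ) (i : Fin n), w = ⁅FreeLieAlgebra.of F i, t j⁆}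

theorem sequence_form [Finite F] (I : Set (FreeLieAlgebra F ℕ))
    (hI : LocallyResiduallyFinite I) (n : ℕ) (t : ℕ → FreeLieAlgebra F (Fin n)) :
    ∃ k l, k < l ∧ t k - t l ∈
      LieSubmodule.lieSpan F (FreeLieAlgebra F (Fin n)) (values I n ∪ products t) := by
  classical
  let J : LieIdeal F (FreeLieAlgebra F (Fin n)) :=
    LieSubmodule.lieSpan F (FreeLieAlgebra F (Fin n)) (values I n ∪ products t)
  let B := FreeLieAlgebra F (Fin n) ⧸ J
  have hB : InVariety I B := by
    intro f hf v
    choose s hs using fun i => quot_surj J (v i)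
    have h1 := lift_comp (quot J) s f
    simp only [hs] at h1
    rw [← h1, quot_eq_zero]
    exact LieSubmodule.subset_lieSpan (Or.inl ⟨f, hf, s, rfl⟩)
  have hgen : ∀ N : LieSubalgebra F (FreeLieAlgebra F (Fin n)),
      (∀ i, FreeLieAlgebra.of F i ∈ N) → N = ⊤ := by
    intro N hN
    rw [eq_top_iff]
    intro x _
    have h : (N.incl.comp (FreeLieAlgebra.lift F (fun i => (⟨_, hN i⟩ : N)))) =
        (LieHom.id : FreeLieAlgebra F (Fin n) →ₗ⁅F⁆ FreeLieAlgebra F (Fin n)) := by
      apply FreeLieAlgebra.hom_ext
      intro i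
      simp
    have h1 := DFunLike.congr_fun h x
    have h2 : ((FreeLieAlgebra.lift F (fun i => (⟨_, hN i⟩ : N)) x : N) :
      FreeLieAlgebra F (Fin n)) = x := h1
    rw [← h2]
    exact (FreeLieAlgebra.lift F (fun i => (⟨_, hN i⟩ : N)) x : N).2
  have hfree : FinGen F (FreeLieAlgebra F (Fin n)) := by
    refine ⟨Finset.univ.image (FreeLieAlgebra.of F), ?_⟩
    rw [finGen_iff_closed]
    intro N hN
    apply hgen
    intro i
    exact hN (by simp)
  have hfg : FinGen F B := finGen_of_surj (quot J) (quot_surj J) hfree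
  have hfin := center_finite I hI B hB hfg
  have hz : ∀ k, quot J (t k) ∈ LieAlgebra.center F B := by
    intro k
    rw [LieModule.mem_maxTrivSubmodule]
    let N : LieSubalgebra F (FreeLieAlgebra F (Fin n)) :=
      { carrier := {x | ⁅x, t k⁆ ∈ J}
        add_mem' := by
          intro a b ha hb
          change ⁅a + b, t k⁆ ∈ J
          rw [add_lie]
          exact J.add_mem ha hb
        zero_mem' := by
          change ⁅(0 : FreeLieAlgebra F (Fin n)), t k⁆ ∈ J
          rw [zero_lie]
          exact J.zero_mem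
        smul_mem' := by
          intro r a ha
          change ⁅r • a, t k⁆ ∈ J
          rw [smul_lie]
          exact J.smul_mem r ha
        lie_mem' := by
          intro a b ha hb
          change ⁅⁅a, b⁆, t k⁆ ∈ J
          rw [lie_lie]
          exact J.sub_mem (J.lie_mem hb) (J.lie_mem ha) }
    have hN := hgen N (fun i => LieSubmodule.subset_lieSpan (Or.inr ⟨k, i, rfl⟩))
    intro x
    obtain ⟨x, rfl⟩ := quot_surj J x
    have h1 : x ∈ N := hN ▸ LieSubalgebra.mem_top x
    have h2 : ⁅x, t k⁆ ∈ J := h1
    rw [← LieHom.map_lie, quot_eq_zero]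
    exact h2
  let c : ℕ → LieAlgebra.center F B := fun k => ⟨_, hz k⟩
  obtain ⟨k, l, hkl, hc⟩ := Finite.exists_ne_map_eq_of_infinite c
  have hc' : ∀ k l, c k = c l → t k - t l ∈ J := by
    intro k l h
    have h1 : quot J (t k) = quot J (t l) :=
      congrArg (fun x : LieAlgebra.center F B => (x : B)) h
    rw [← quot_eq_zero, map_sub, h1, sub_self]
  rcases lt_or_gt_of_ne hkl with h | h
  · exact ⟨k, l, h, hc' k l hc⟩
  · exact ⟨l, k, h, hc' l k hc.symm⟩

/-- the left-normed commutator `[a, y, ..., y, b]` with `k` letters `y` -/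
noncomputable def engel (F : Type u) [Field F] (k : ℕ) : FreeLieAlgebra F (Fin 3) :=
  ⁅(fun w => ⁅w, FreeLieAlgebra.of F (1 : Fin 3)⁆)^[k] (FreeLieAlgebra.of F 0),
    FreeLieAlgebra.of F 2⁆

end Pool.Agent.Helper844.RFLie
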