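import Mathlib
import Pool.Agent.Helper844.RF.Lie

/-! A finitely generated centre-by-metabelian Lie algebra with an infinite centre. -/

set_option autoImplicit false

namespace Pool.Agent.Helper844.RFLie

universe u

open Polynomial

variable (F : Type u) [Field F]

/-- the underlying space `F x ⊕ F[t] a ⊕ F[t] b ⊕ F[t] z` -/
@[ext] structure H where
  x : F
  a : F[X]
  b : F[X]
  z : F[X]

namespace H
variable {F}

/-- underlying equivalence -/
def equiv : H F ≃ F × F[X] × F[X] × F[X] where
  toFun h := (h.x, h.a, h.b, h.z)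
  invFun p := ⟨p.1, p.2.1, p.2.2.1, p.2.2.2⟩
  left_inv _ := rfl
  right_inv _ := rfl

noncomputable instance : AddCommGroup (H F) := equiv.addCommGroup
noncomputable instance : Module F (H F) := equiv.module F

@[simp] lemma add_x (g h : H F) : (g + h).x = g.x + h.x := rfl
@[simp] lemma add_a (g h : H F) : (g + h).a = g.a + h.a := rfl
@[simp] lemma add_b (g h : H F) : (g + h).b = g.b + h.b := rfl
@[simp] lemma add_z (g h : H F) : (g + h).z = g.z + h.z := rfl
@[simp] lemma zero_x : (0 : H F).x = 0 := rfl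
@[simp] lemma zero_a : (0 : H F).a = 0 := rfl
@[simp] lemma zero_b : (0 : H F).b = 0 := rfl
@[simp] lemma zero_z : (0 : H F).z = 0 := rfl
@[simp] lemma smul_x (r : F) (h : H F) : (r • h).x = r * h.x := rfl
@[simp] lemma smul_a (r : F) (h : H F) : (r • h).a = r • h.a := rfl
@[simp] lemma smul_b (r : F) (h : H F) : (r • h).b = r • h.b := rfl
@[simp] lemma smul_z (r : F) (h : H F) : (r • h).z = r • h.z := rfl

/-- the substitution `t ↦ -t` -/
noncomputable def σ : F[X] →+* F[X] := Polynomial.compRingHom (-X)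

@[simp] lemma σ_X : σ (X : F[X]) = -X := by simp [σ]
@[simp] lemma σ_C (r : F) : σ (C r) = C r := by simp [σ]

noncomputable instance : Bracket (H F) (H F) := ⟨fun g h =>
  ⟨0, C g.x * X * h.a - C h.x * X * g.a, C g.x * X * h.b - C h.x * X * g.b,
    g.a * σ h.b - h.a * σ g.b⟩⟩

@[simp] lemma lie_x (g h : H F) : (⁅g, h⁆).x = 0 := rfl
@[simp] lemma lie_a (g h : H F) : (⁅g, h⁆).a = C g.x * X * h.a - C h.x * X * g.a := rfl
@[simp] lemma lie_b (g h : H F) : (⁅g, h⁆).b = C g.x * X * h.b - C h.x * X * g.b := rfl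
@[simp] lemma lie_z (g h : H F) : (⁅g, h⁆).z = g.a * σ h.b - h.a * σ g.b := rfl

noncomputable instance : LieRing (H F) where
  add_lie g h k := by ext1 <;> simp <;> ring
  lie_add g h k := by ext1 <;> simp <;> ring
  lie_self g := by ext1 <;> simp
  leibniz_lie g h k := by ext1 <;> simp <;> ring

noncomputable instance : LieAlgebra F (H F) where
  lie_smul r g h := by
    ext1 <;> simp [smul_eq_C_mul] <;> ring

lemma identity (x y z t w : H F) : ⁅⁅⁅x, y⁆, ⁅z, t⁆⁆, w⁆ = 0 := by
  have h : ∀ p q : H F, p.x = 0 → q.x = 0 → ⁅⁅p, q⁆, w⁆ = 0 := by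
    intro p q hp hq
    ext1 <;> simp only [lie_x, lie_a, lie_b, lie_z, hp, hq] <;> simp
  exact h _ _ rfl rfl

/-- generators -/
noncomputable def gx : H F := ⟨1, 0, 0, 0⟩
noncomputable def ga : H F := ⟨0, 1, 0, 0⟩
noncomputable def gb : H F := ⟨0, 0, 1, 0⟩

lemma gen (N : LieSubalgebra F (H F)) (hx : gx ∈ N) (ha : ga ∈ N) (hb : gb ∈ N) : N = ⊤ := by
  have h1 : ∀ k : ℕ, (⟨0, X ^ k, 0, 0⟩ : H F) ∈ N := by
    intro k
    induction k with
    | zero => simpa [ga] using ha
    | succ k ih =>
      have := N.lie_mem hx ih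
      convert this using 1
      ext1 <;> simp [gx, pow_succ']
  have h2 : ∀ k : ℕ, (⟨0, 0, X ^ k, 0⟩ : H F) ∈ N := by
    intro k
    induction k with
    | zero => simpa [gb] using hb
    | succ k ih =>
      have := N.lie_mem hx ih
      convert this using 1
      ext1 <;> simp [gx, pow_succ']
  have h3 : ∀ k : ℕ, (⟨0, 0, 0, X ^ k⟩ : H F) ∈ N := by
    intro k
    have := N.lie_mem (h1 k) hb
    convert this using 1
    ext1 <;> simp [gb]
  have h4 : ∀ p : F[X], (⟨0, p, 0, 0⟩ : H F) ∈ N := by
    intro p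
    induction p using Polynomial.induction_on' with
    | add p q hp hq =>
      convert N.add_mem hp hq using 1
      ext1 <;> simp
    | monomial k r =>
      convert N.smul_mem r (h1 k) using 1
      ext1 <;> simp [smul_eq_C_mul, C_mul_X_pow_eq_monomial]
  have h5 : ∀ p : F[X], (⟨0, 0, p, 0⟩ : H F) ∈ N := by
    intro p
    induction p using Polynomial.induction_on' with
    | add p q hp hq =>
      convert N.add_mem hp hq using 1
      ext1 <;> simp
    | monomial k r =>
      convert N.smul_mem r (h2 k) using 1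
      ext1 <;> simp [smul_eq_C_mul, C_mul_X_pow_eq_monomial]
  have h6 : ∀ p : F[X], (⟨0, 0, 0, p⟩ : H F) ∈ N := by
    intro p
    induction p using Polynomial.induction_on' with
    | add p q hp hq =>
      convert N.add_mem hp hq using 1
      ext1 <;> simp
    | monomial k r =>
      convert N.smul_mem r (h3 k) using 1
      ext1 <;> simp [smul_eq_C_mul, C_mul_X_pow_eq_monomial]
  rw [eq_top_iff]
  intro g _
  convert N.add_mem (N.add_mem (N.smul_mem g.x hx) (h4 g.a)) (N.add_mem (h5 g.b) (h6 g.z)) using 1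
  ext1 <;> simp [gx]

lemma fg : FinGen F (H F) := by
  classical
  refine ⟨{gx, ga, gb}, ?_⟩
  rw [finGen_iff_closed]
  intro N hN
  exact gen N (hN (by simp)) (hN (by simp)) (hN (by simp))

lemma center_infinite : ¬ Finite (LieAlgebra.center F (H F)) := by
  intro hfin
  have hmem : ∀ k : ℕ, (⟨0, 0, 0, X ^ k⟩ : H F) ∈ LieAlgebra.center F (H F) := by
    intro k
    rw [LieModule.mem_maxTrivSubmodule]
    intro g
    ext1 <;> simp
  have hinj : Function.Injective
      (fun k : ℕ => (⟨_, hmem k⟩ : LieAlgebra.center F (H F))) := by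
    intro k l h
    have h1 : (⟨0, 0, 0, X ^ k⟩ : H F) = ⟨0, 0, 0, X ^ l⟩ :=
      congrArg (fun x : LieAlgebra.center F (H F) => (x : H F)) h
    have h2 : (X ^ k : F[X]) = X ^ l := congrArg H.z h1
    have h3 := congrArg natDegree h2
    rwa [natDegree_X_pow, natDegree_X_pow] at h3
  exact not_injective_infinite_finite _ hinj

end H

/-- A locally residually finite variety over a finite field does not contain all
centre-by-metabelian Lie algebras. -/
theorem not_contains [Finite F] (I : Set (FreeLieAlgebra F ℕ)) (hI : LocallyResiduallyFinite I) :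
    ∃ (L : Type u) (_ : LieRing L) (_ : LieAlgebra F L),
      (∀ x y z t w : L, ⁅⁅⁅x, y⁆, ⁅z, t⁆⁆, w⁆ = 0) ∧ ¬ InVariety I L := by
  refine ⟨H F, inferInstance, inferInstance, H.identity, ?_⟩
  intro h
  exact H.center_infinite (center_finite I hI (H F) h H.fg)

end Pool.Agent.Helper844.RFLie
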