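import Mathlib
import Pool.Agent.Helper844.RF.Core

/-! Varieties of associative rings, local residual finiteness. -/

set_option autoImplicit false

namespace Pool.Agent.Helper844.RFRing

open Pool.Agent.Helper844.RF

/-- The polynomial `f` with integer coefficients is an identity of the not necessarily unital ring
`A`: all its values at elements of `A` are zero (the values are computed in the ring `ℤ ⊕ A` with
a unit adjoined). -/
def IsIdentity (A : Type) [NonUnitalRing A] (f : FreeAlgebra ℤ ℕ) : Prop :=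
  ∀ v : ℕ → A, FreeAlgebra.lift ℤ (fun i => (Unitization.inr (v i) : Unitization ℤ A)) f = 0

/-- `A` lies in the variety defined by the set `I` of identities. -/
def InVariety (I : Set (FreeAlgebra ℤ ℕ)) (A : Type) [NonUnitalRing A] : Prop :=
  ∀ f ∈ I, IsIdentity A f

/-- `A` is a finitely generated ring. -/
def FinGen (A : Type) [NonUnitalRing A] : Prop :=
  ∃ s : Finset A, NonUnitalSubring.closure (s : Set A) = ⊤

/-- `A` is residually finite: every nonzero element survives under a homomorphism into a finite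
ring. -/
def ResiduallyFinite (A : Type) [NonUnitalRing A] : Prop :=
  ∀ a : A, a ≠ 0 → ∃ (B : Type) (_ : NonUnitalRing B) (_ : Finite B) (φ : A →ₙ+* B), φ a ≠ 0

/-- The variety defined by `I` is locally residually finite: all its finitely generated rings
are residually finite. -/
def LocallyResiduallyFinite (I : Set (FreeAlgebra ℤ ℕ)) : Prop :=
  ∀ (A : Type) [NonUnitalRing A], InVariety I A → FinGen A → ResiduallyFinite A

/-- The (two-sided) annihilator of `A`. -/
def annihilator (A : Type) [NonUnitalRing A] : AddSubgroup A where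
  carrier := {z | ∀ x, z * x = 0 ∧ x * z = 0}
  add_mem' := by
    intro a b ha hb x
    rw [add_mul, mul_add, (ha x).1, (ha x).2, (hb x).1, (hb x).2]
    simp
  zero_mem' := by
    intro x
    simp
  neg_mem' := by
    intro a ha x
    rw [neg_mul, mul_neg, (ha x).1, (ha x).2]
    simp

/-- codes of finite quotients with marked generators -/
abbrev Code (n : Type) : Type :=
  Σ m : ℕ, (Fin m → Fin m → Fin m) × (Fin m → Fin m → Fin m) × (n → Fin m)

/-- the map `ψ` onto a finite ring has code `c` -/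
def HasCode {A : Type} [NonUnitalRing A] (s : Finset A) (c : Code s) (B : Type) [NonUnitalRing B]
    (ψ : A →ₙ+* B) (e : B ≃ Fin c.1) : Prop :=
  (∀ x y, e (x * y) = c.2.1 (e x) (e y)) ∧ (∀ x y, e (x + y) = c.2.2.1 (e x) (e y)) ∧
  (∀ i : s, e (ψ i) = c.2.2.2 i)

lemma code_ker {A : Type} [NonUnitalRing A] (s : Finset A)
    (hs : NonUnitalSubring.closure (s : Set A) = ⊤)
    (c : Code s) (B : Type) [NonUnitalRing B]
    (ψ : A →ₙ+* B) (e : B ≃ Fin c.1) (h : HasCode s c B ψ e)
    (B' : Type) [NonUnitalRing B']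
    (ψ' : A →ₙ+* B') (e' : B' ≃ Fin c.1) (h' : HasCode s c B' ψ' e') (a : A) :
    ψ a = 0 → ψ' a = 0 := by
  obtain ⟨h1, h2, h4⟩ := h
  obtain ⟨h1', h2', h4'⟩ := h'
  let σ : B → B' := fun x => e'.symm (e x)
  have hmul : ∀ x y, σ (x * y) = σ x * σ y := by
    intro x y
    apply e'.injective
    simp only [σ, Equiv.apply_symm_apply, h1, h1']
  have hadd : ∀ x y, σ (x + y) = σ x + σ y := by
    intro x y
    apply e'.injective
    simp only [σ, Equiv.apply_symm_apply, h2, h2']
  have h0 : σ 0 = 0 := by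
    have := hadd 0 0
    rw [add_zero] at this
    exact left_eq_add.mp this
  have hneg : ∀ x, σ (-x) = - σ x := by
    intro x
    have := hadd x (-x)
    rw [add_neg_cancel, h0] at this
    exact (neg_eq_of_add_eq_zero_right this.symm).symm
  have hgen : ∀ i : s, σ (ψ i) = ψ' i := by
    intro i
    apply e'.injective
    simp only [σ, Equiv.apply_symm_apply, h4, h4']
  have hall : ∀ x : A, σ (ψ x) = ψ' x := by
    intro x
    have hx : x ∈ NonUnitalSubring.closure (s : Set A) := by rw [hs]; trivial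
    induction hx using NonUnitalSubring.closure_induction with
    | mem x hx => exact hgen ⟨x, hx⟩
    | zero => rw [map_zero, map_zero, h0]
    | add x y _ _ hx hy => rw [map_add, map_add, hadd, hx, hy]
    | neg x _ hx => rw [map_neg, map_neg, hneg, hx]
    | mul x y _ _ hx hy => rw [map_mul, map_mul, hmul, hx, hy]
  intro ha
  rw [← hall a, ha, h0]

theorem core_ring (A : Type) [NonUnitalRing A] (hfg : FinGen A)
    (F : Type) [Field F] [Finite F] (hF : ∀ c : F, ∃ j : ℕ, (j : F) = c)
    (hrf : ∀ K : AddSubgroup A, K ≤ annihilator A → ∀ a, a ∉ K →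
      ∃ (B : Type) (_ : NonUnitalRing B) (_ : Finite B) (ψ : A →ₙ+* B),
        (∀ x ∈ K, ψ x = 0) ∧ ψ a ≠ 0)
    (T : AddSubgroup A) (hT : T ≤ annihilator A) (V : Type) [AddCommGroup V] [Module F V]
    (m : T →+ V) (hm : Function.Surjective m) : Finite V := by
  classical
  obtain ⟨s, hs⟩ := hfg
  apply finite_of_countable_kernels (F := F) (Z := V) (C := Code s)
    (fun c K => ∃ (B : Type) (_ : NonUnitalRing B) (ψ : A →ₙ+* B) (e : B ≃ Fin c.1),
      HasCode s c B ψ e ∧ ∀ z : T, m z ∈ K ↔ ψ z = 0)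
  · rintro c K K' ⟨B, i1, ψ, e, hc, hK⟩ ⟨B', i1', ψ', e', hc', hK'⟩
    ext x
    obtain ⟨z, rfl⟩ := hm x
    rw [hK, hK']
    exact ⟨code_ker s hs c B ψ e hc B' ψ' e' hc' z, code_ker s hs c B' ψ' e' hc' B ψ e hc z⟩
  · intro φ hφ
    let f : T →+ F := φ.toAddMonoidHom.comp m
    have hf : ∀ z, f z = φ (m z) := fun z => rfl
    obtain ⟨z0, hz0⟩ : ∃ z0, f z0 ≠ 0 := by
      by_contra h
      push Not at h
      apply hφ
      apply LinearMap.ext
      intro x
      obtain ⟨z, rfl⟩ := hm x
      exact h z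
    let K : AddSubgroup A := f.ker.map T.subtype
    have hKc : K ≤ annihilator A := by
      rintro _ ⟨z, _, rfl⟩
      exact hT z.2
    have hK : ∀ z : T, (z : A) ∈ K ↔ f z = 0 := by
      intro z
      constructor
      · rintro ⟨w, hw, hw'⟩
        have h1 : w = z := Subtype.ext hw'
        rw [← h1]
        exact hw
      · intro h
        exact ⟨z, h, rfl⟩
    obtain ⟨B, i1, i3, ψ, hψ, hψz⟩ := hrf K hKc _ (fun h => hz0 ((hK z0).mp h))
    have := Fintype.ofFinite B
    let e : B ≃ Fin (Fintype.card B) := Fintype.equivFin B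
    refine ⟨⟨Fintype.card B, fun x y => e (e.symm x * e.symm y),
      fun x y => e (e.symm x + e.symm y), fun i => e (ψ i)⟩,
      B, i1, ψ, e, ⟨?_, ?_, ?_⟩, ?_⟩
    · intro x y; simp
    · intro x y; simp
    · intro i; rfl
    · intro z
      rw [LinearMap.mem_ker, ← hf]
      constructor
      · intro hx
        exact hψ z ((hK z).mpr hx)
      · intro hx
        by_contra hne
        apply hψz
        obtain ⟨j, hj⟩ := hF (f z0 / f z)
        have h1 : f (z0 - j • z) = 0 := by
          rw [map_sub, map_nsmul, nsmul_eq_mul, hj, div_mul_cancel₀ _ hne, sub_self]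
        have h2 := hψ _ ((hK _).mpr h1)
        have h3 : (z0 : A) = ((z0 - j • z : T) : A) + j • (z : A) := by
          push_cast
          abel
        rw [h3, map_add, h2, map_nsmul, hx, smul_zero, add_zero]

section quot
variable {A : Type} [NonUnitalRing A]

/-- the quotient by a subgroup of the annihilator -/
def Q (K : AddSubgroup A) (_ : K ≤ annihilator A) : Type := A ⧸ K

variable (K : AddSubgroup A) (hK : K ≤ annihilator A)

instance : AddCommGroup (Q K hK) := inferInstanceAs (AddCommGroup (A ⧸ K))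

/-- the quotient map -/
def mk : A →+ Q K hK := QuotientAddGroup.mk' K

lemma mk_surj : Function.Surjective (mk K hK) := QuotientAddGroup.mk'_surjective K

lemma mk_eq_zero (a : A) : mk K hK a = 0 ↔ a ∈ K := QuotientAddGroup.eq_zero_iff a

instance : Mul (Q K hK) := ⟨fun x y => Quotient.liftOn₂' x y (fun a b => mk K hK (a * b)) (by
  intro a b a' b' ha hb
  have ha' : -a + a' ∈ K := QuotientAddGroup.leftRel_apply.mp ha
  have hb' : -b + b' ∈ K := QuotientAddGroup.leftRel_apply.mp hb
  have h1 : a * b = a' * b' := by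
    have h2 := (hK ha' b).1
    have h3 := (hK hb' a').2
    rw [add_mul, neg_mul, neg_add_eq_zero] at h2
    rw [mul_add, mul_neg, neg_add_eq_zero] at h3
    rw [h2, h3]
  simp only [h1])⟩

lemma mk_mul (a b : A) : mk K hK (a * b) = mk K hK a * mk K hK b := rfl

instance : NonUnitalRing (Q K hK) :=
  { (inferInstance : AddCommGroup (Q K hK)), (inferInstance : Mul (Q K hK)) with
    left_distrib := by
      intro x y z
      obtain ⟨a, rfl⟩ := mk_surj K hK x
      obtain ⟨b, rfl⟩ := mk_surj K hK y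
      obtain ⟨c, rfl⟩ := mk_surj K hK z
      rw [← map_add, ← mk_mul, ← mk_mul, ← mk_mul, ← map_add, mul_add]
    right_distrib := by
      intro x y z
      obtain ⟨a, rfl⟩ := mk_surj K hK x
      obtain ⟨b, rfl⟩ := mk_surj K hK y
      obtain ⟨c, rfl⟩ := mk_surj K hK z
      rw [← map_add, ← mk_mul, ← mk_mul, ← mk_mul, ← map_add, add_mul]
    zero_mul := by
      intro x
      obtain ⟨a, rfl⟩ := mk_surj K hK x
      rw [← map_zero (mk K hK), ← mk_mul, zero_mul]
    mul_zero := by
      intro x
      obtain ⟨a, rfl⟩ := mk_surj K hK x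
      rw [← map_zero (mk K hK), ← mk_mul, mul_zero]
    mul_assoc := by
      intro x y z
      obtain ⟨a, rfl⟩ := mk_surj K hK x
      obtain ⟨b, rfl⟩ := mk_surj K hK y
      obtain ⟨c, rfl⟩ := mk_surj K hK z
      rw [← mk_mul, ← mk_mul, ← mk_mul, ← mk_mul, mul_assoc] }

/-- the quotient map as a homomorphism -/
def mkHom : A →ₙ+* Q K hK :=
  { toFun := mk K hK
    map_zero' := map_zero (mk K hK)
    map_add' := map_add (mk K hK)
    map_mul' := mk_mul K hK }

lemma mkHom_surj : Function.Surjective (mkHom K hK) := mk_surj K hK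

lemma mkHom_eq_zero (a : A) : mkHom K hK a = 0 ↔ a ∈ K := mk_eq_zero K hK a

end quot

section closure
variable {A B : Type} [NonUnitalRing A] [NonUnitalRing B]

/-- the extension of a homomorphism to the rings with adjoined units -/
def ext (ψ : A →ₙ+* B) : Unitization ℤ A →ₐ[ℤ] Unitization ℤ B :=
  Unitization.lift (NonUnitalAlgHom.comp (Unitization.inrNonUnitalAlgHom ℤ B)
    { ψ with map_smul' := fun r x => map_zsmul ψ r x })

lemma ext_inr (ψ : A →ₙ+* B) (a : A) : ext ψ (Unitization.inr a) = Unitization.inr (ψ a) := by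
  simp [ext]

lemma map_lift (ψ : A →ₙ+* B) (v : ℕ → A) (f : FreeAlgebra ℤ ℕ) :
    ext ψ (FreeAlgebra.lift ℤ (fun i => (Unitization.inr (v i) : Unitization ℤ A)) f) =
    FreeAlgebra.lift ℤ (fun i => (Unitization.inr (ψ (v i)) : Unitization ℤ B)) f := by
  have h : (ext ψ).comp
      (FreeAlgebra.lift ℤ (fun i => (Unitization.inr (v i) : Unitization ℤ A))) =
      FreeAlgebra.lift ℤ (fun i => (Unitization.inr (ψ (v i)) : Unitization ℤ B)) := by
    apply FreeAlgebra.hom_ext
    funext i
    simp only [Function.comp_apply, AlgHom.comp_apply, FreeAlgebra.lift_ι_apply, ext_inr]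
  exact DFunLike.congr_fun h f

lemma inVariety_of_surj (I : Set (FreeAlgebra ℤ ℕ)) (ψ : A →ₙ+* B)
    (hψ : Function.Surjective ψ) (hA : InVariety I A) : InVariety I B := by
  intro f hf w
  choose v hv using fun i => hψ (w i)
  have h := map_lift ψ v f
  rw [hA f hf v, map_zero] at h
  simp only [hv] at h
  exact h.symm

lemma finGen_of_surj (ψ : A →ₙ+* B)
    (hψ : Function.Surjective ψ) (hA : FinGen A) : FinGen B := by
  classical
  obtain ⟨s, hs⟩ := hA
  refine ⟨s.image ψ, ?_⟩
  rw [Finset.coe_image, eq_top_iff]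
  intro b _
  obtain ⟨a, rfl⟩ := hψ b
  have h : NonUnitalSubring.closure (s : Set A) ≤
      (NonUnitalSubring.closure (ψ '' (s : Set A))).comap ψ := by
    rw [NonUnitalSubring.closure_le]
    intro x hx
    exact NonUnitalSubring.subset_closure ⟨x, hx, rfl⟩
  rw [hs] at h
  exact h (trivial : a ∈ (⊤ : NonUnitalSubring A))

end closure

lemma separate (I : Set (FreeAlgebra ℤ ℕ)) (hI : LocallyResiduallyFinite I) (A : Type)
    [NonUnitalRing A] (hA : InVariety I A) (hfg : FinGen A) (K : AddSubgroup A)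
    (hK : K ≤ annihilator A) (a : A) (ha : a ∉ K) :
    ∃ (B : Type) (_ : NonUnitalRing B) (_ : Finite B) (ψ : A →ₙ+* B),
      (∀ x ∈ K, ψ x = 0) ∧ ψ a ≠ 0 := by
  have h := hI (Q K hK) (inVariety_of_surj I (mkHom K hK) (mkHom_surj K hK) hA)
    (finGen_of_surj (mkHom K hK) (mkHom_surj K hK) hfg) (mkHom K hK a)
    (fun h => ha ((mkHom_eq_zero K hK a).mp h))
  obtain ⟨B, i1, i5, φ, hφ⟩ := h
  refine ⟨B, i1, i5, φ.comp (mkHom K hK), ?_, hφ⟩
  intro x hx
  change φ (mkHom K hK x) = 0
  rw [(mkHom_eq_zero K hK x).mpr hx, map_zero]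

/-- annihilating subgroups: finite modulo `p` -/
theorem annihilator_finite (I : Set (FreeAlgebra ℤ ℕ)) (hI : LocallyResiduallyFinite I)
    (A : Type) [NonUnitalRing A] (hA : InVariety I A) (hfg : FinGen A) (p : ℕ) (hp : p.Prime)
    (T : AddSubgroup A) (hT : T ≤ annihilator A) :
    Finite (T ⧸ (nsmulAddMonoidHom p : T →+ T).range) := by
  have : Fact p.Prime := ⟨hp⟩
  have hmod : ∀ x : T ⧸ (nsmulAddMonoidHom p : T →+ T).range, p • x = 0 := by
    intro x
    obtain ⟨z, rfl⟩ := QuotientAddGroup.mk_surjective x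
    rw [← QuotientAddGroup.mk_nsmul, QuotientAddGroup.eq_zero_iff]
    exact ⟨z, rfl⟩
  let inst : Module (ZMod p) (T ⧸ (nsmulAddMonoidHom p : T →+ T).range) :=
    AddCommGroup.zmodModule hmod
  exact @core_ring A _ hfg (ZMod p) _ _ (fun c => ⟨c.val, ZMod.natCast_zmod_val c⟩)
    (separate I hI A hA hfg) T hT (T ⧸ (nsmulAddMonoidHom p : T →+ T).range) _ inst
    (QuotientAddGroup.mk' _) (QuotientAddGroup.mk'_surjective _)

/-- annihilating subgroups: no divisible quotients -/
theorem annihilator_not_divisible (I : Set (FreeAlgebra ℤ ℕ)) (hI : LocallyResiduallyFinite I)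
    (A : Type) [NonUnitalRing A] (hA : InVariety I A) (hfg : FinGen A)
    (T K : AddSubgroup A) (hT : T ≤ annihilator A) (hKT : K ≤ T)
    (hdiv : ∀ z ∈ T, ∀ m : ℕ, 0 < m → ∃ w ∈ T, z - m • w ∈ K) : K = T := by
  apply le_antisymm hKT
  intro z hz
  by_contra hzK
  obtain ⟨B, i1, i2, ψ, hψ, hψz⟩ := separate I hI A hA hfg K (hKT.trans hT) z hzK
  have hB : 0 < Nat.card B := Nat.card_pos
  obtain ⟨w, _, hw⟩ := hdiv z hz (Nat.card B) hB
  apply hψz
  have h3 : z = (z - Nat.card B • w) + Nat.card B • w := by abel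
  rw [h3, map_add, hψ _ hw, map_nsmul, zero_add]
  exact card_nsmul_eq_zero'

end Pool.Agent.Helper844.RFRing
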