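import Mathlib
import Pool.Agent.Helper844.RF.Ring
import Pool.Agent.Helper844.RF.AssocEx

/-! The form of the condition for identities, and an example. -/

set_option autoImplicit false

namespace Pool.Agent.Helper844.RFRing

/-- the constant term of a noncommutative polynomial -/
noncomputable def constTerm {X : Type} : FreeAlgebra ℤ X →ₐ[ℤ] ℤ :=
  FreeAlgebra.lift ℤ (fun _ => (0 : ℤ))

/-- The values of the polynomials from `I` at elements without constant term of the free ring
on `n` generators. They generate the ideal of all identities in `n` variables that hold in the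
variety defined by `I`. -/
def values (I : Set (FreeAlgebra ℤ ℕ)) (n : ℕ) : Set (FreeAlgebra ℤ (Fin n)) :=
  {w | ∃ f ∈ I, ∃ s : ℕ → FreeAlgebra ℤ (Fin n), (∀ i, constTerm (s i) = 0) ∧
    w = FreeAlgebra.lift ℤ s f}

/-- All products of the polynomials `t j` with a variable, on the left or on the right, and all
polynomials `p * t j`. -/
def products (p : ℕ) {n : ℕ} (t : ℕ → FreeAlgebra ℤ (Fin n)) : Set (FreeAlgebra ℤ (Fin n)) :=
  {w | ∃ j : ℕ, (∃ i : Fin n, w = FreeAlgebra.ι ℤ i * t j ∨ w = t j * FreeAlgebra.ι ℤ i) ∨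
    w = p • t j}

lemma exists_quotient {n : ℕ} (J : TwoSidedIdeal (FreeAlgebra ℤ (Fin n))) :
    ∃ (R : Type) (_ : Ring R) (q : FreeAlgebra ℤ (Fin n) →+* R), ∀ y, q y = 0 ↔ y ∈ J :=
  ⟨J.ringCon.Quotient, inferInstance, J.ringCon.mk', fun y => by
    rw [TwoSidedIdeal.mem_iff]
    exact RingCon.eq (c := J.ringCon)⟩

theorem seq_core (I : Set (FreeAlgebra ℤ ℕ)) (h0 : ∀ f ∈ I, constTerm f = 0)
    (hI : LocallyResiduallyFinite I) (p : ℕ) (hp : p.Prime) (n : ℕ)
    (t : ℕ → FreeAlgebra ℤ (Fin n))
    (ht : ∀ k, constTerm (t k) = 0) (R : Type) [Ring R] (q : FreeAlgebra ℤ (Fin n) →+* R)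
    (hq : ∀ w ∈ values I n ∪ products p t, q w = 0) :
    ∃ k l, k < l ∧ q (t k) = q (t l) := by
  classical
  let B : NonUnitalSubring R :=
    { carrier := {x | ∃ u, constTerm u = 0 ∧ q u = x}
      add_mem' := by
        rintro _ _ ⟨u, hu, rfl⟩ ⟨v, hv, rfl⟩
        exact ⟨u + v, by rw [map_add, hu, hv, add_zero], map_add _ _ _⟩
      zero_mem' := ⟨0, map_zero _, map_zero _⟩
      mul_mem' := by
        rintro _ _ ⟨u, hu, rfl⟩ ⟨v, hv, rfl⟩
        exact ⟨u * v, by rw [map_mul, hu, zero_mul], map_mul _ _ _⟩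
      neg_mem' := by
        rintro _ ⟨u, hu, rfl⟩
        exact ⟨-u, by rw [map_neg, hu, neg_zero], map_neg _ _⟩ }
  -- `B` lies in the variety
  have hB : InVariety I B := by
    intro f hf v
    choose s hs hs' using fun i => (v i).2
    let Λ : Unitization ℤ B →ₐ[ℤ] R :=
      Unitization.lift { NonUnitalSubringClass.subtype B with
        map_smul' := fun r x => map_zsmul (NonUnitalSubringClass.subtype B) r x }
    have hΛ : ∀ b : B, Λ (Unitization.inr b) = (b : R) := by
      intro b
      simp [Λ]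
    have h1 : Λ.comp (FreeAlgebra.lift ℤ (fun i => (Unitization.inr (v i) : Unitization ℤ B))) =
        q.toIntAlgHom.comp (FreeAlgebra.lift ℤ s) := by
      apply FreeAlgebra.hom_ext
      funext i
      simp only [Function.comp_apply, AlgHom.comp_apply, FreeAlgebra.lift_ι_apply]
      rw [hΛ]
      exact (hs' i).symm
    have h2 : q (FreeAlgebra.lift ℤ s f) = 0 := hq _ (Or.inl ⟨f, hf, s, hs, rfl⟩)
    have h3 := DFunLike.congr_fun h1 f
    rw [AlgHom.comp_apply, AlgHom.comp_apply] at h3
    have h3' := h3.trans h2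
    have h4 : (Unitization.fstHom ℤ B).comp
        (FreeAlgebra.lift ℤ (fun i => (Unitization.inr (v i) : Unitization ℤ B))) =
        (constTerm : FreeAlgebra ℤ ℕ →ₐ[ℤ] ℤ) := by
      apply FreeAlgebra.hom_ext
      funext i
      simp [constTerm]
    have h5 := DFunLike.congr_fun h4 f
    rw [AlgHom.comp_apply, h0 f hf] at h5
    set w := FreeAlgebra.lift ℤ (fun i => (Unitization.inr (v i) : Unitization ℤ B)) f with hw
    have h6 : w = Unitization.inr w.snd := by
      apply Unitization.ext
      · rw [Unitization.fst_inr]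
        exact h5
      · rw [Unitization.snd_inr]
    rw [h6, hΛ] at h3'
    have h7 : w.snd = 0 := Subtype.ext h3'
    rw [h6, h7, Unitization.inr_zero]
  -- generators
  have hι : ∀ i : Fin n, constTerm (FreeAlgebra.ι ℤ i) = (0 : ℤ) := by
    intro i
    simp [constTerm]
  let g : Fin n → B := fun i => ⟨q (FreeAlgebra.ι ℤ i), FreeAlgebra.ι ℤ i, hι i, rfl⟩
  have hgen : ∀ N : NonUnitalSubring B, (∀ i, g i ∈ N) → ∀ x, x ∈ N := by
    intro N hN
    have hcl : ∀ u : FreeAlgebra ℤ (Fin n), ∃ b ∈ N, (b : R) = q u - (constTerm u : ℤ) := by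
      intro u
      induction u with
      | grade0 r =>
        refine ⟨0, zero_mem _, ?_⟩
        have h1 : constTerm (algebraMap ℤ (FreeAlgebra ℤ (Fin n)) r) = r := by
          rw [AlgHom.commutes]
          rfl
        rw [h1, eq_intCast, map_intCast]
        simp
      | grade1 i =>
        refine ⟨g i, hN i, ?_⟩
        rw [hι, Int.cast_zero, sub_zero]
      | mul u v hu hv =>
        obtain ⟨b, hb, hb'⟩ := hu
        obtain ⟨c, hc, hc'⟩ := hv
        refine ⟨b * c + ((constTerm u : ℤ) • c + (constTerm v : ℤ) • b),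
          add_mem (mul_mem hb hc) (add_mem (zsmul_mem hc _) (zsmul_mem hb _)), ?_⟩
        have h1 : q u = b + (constTerm u : ℤ) := by rw [hb']; abel
        have h2 : q v = c + (constTerm v : ℤ) := by rw [hc']; abel
        rw [map_mul, map_mul, h1, h2]
        push_cast
        rw [zsmul_eq_mul, zsmul_eq_mul, add_mul, mul_add, mul_add,
          ← Int.cast_comm (constTerm v : ℤ) (b : R)]
        abel
      | add u v hu hv =>
        obtain ⟨b, hb, hb'⟩ := hu
        obtain ⟨c, hc, hc'⟩ := hv
        refine ⟨b + c, add_mem hb hc, ?_⟩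
        rw [map_add, map_add]
        push_cast
        rw [hb', hc']
        abel
    rintro ⟨_, u, hu, rfl⟩
    obtain ⟨b, hb, hb'⟩ := hcl u
    rw [hu, Int.cast_zero, sub_zero] at hb'
    have : b = ⟨q u, u, hu, rfl⟩ := Subtype.ext hb'
    rw [← this]
    exact hb
  have hfg : FinGen B := by
    refine ⟨Finset.univ.image g, ?_⟩
    rw [eq_top_iff]
    intro x _
    apply hgen
    intro i
    apply NonUnitalSubring.subset_closure
    simp
  -- the images of the polynomials `t k` lie in the annihilator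
  have hz : ∀ k, (⟨q (t k), t k, ht k, rfl⟩ : B) ∈ annihilator B := by
    intro k
    let z : B := ⟨q (t k), t k, ht k, rfl⟩
    let N : NonUnitalSubring B :=
      { carrier := {x | z * x = 0 ∧ x * z = 0}
        add_mem' := by
          rintro a b ⟨ha, ha'⟩ ⟨hb, hb'⟩
          exact ⟨by rw [mul_add, ha, hb, add_zero], by rw [add_mul, ha', hb', add_zero]⟩
        zero_mem' := ⟨mul_zero _, zero_mul _⟩
        mul_mem' := by
          rintro a b ⟨ha, ha'⟩ ⟨hb, hb'⟩
          exact ⟨by rw [← mul_assoc, ha, zero_mul], by rw [mul_assoc, hb', mul_zero]⟩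
        neg_mem' := by
          rintro a ⟨ha, ha'⟩
          exact ⟨by rw [mul_neg, ha, neg_zero], by rw [neg_mul, ha', neg_zero]⟩ }
    intro x
    have h1 : x ∈ N := by
      apply hgen
      intro i
      constructor
      · apply Subtype.ext
        change q (t k) * q (FreeAlgebra.ι ℤ i) = 0
        rw [← map_mul]
        exact hq _ (Or.inr ⟨k, Or.inl ⟨i, Or.inr rfl⟩⟩)
      · apply Subtype.ext
        change q (FreeAlgebra.ι ℤ i) * q (t k) = 0
        rw [← map_mul]
        exact hq _ (Or.inr ⟨k, Or.inl ⟨i, Or.inl rfl⟩⟩)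
    exact h1
  let T : AddSubgroup B := annihilator B ⊓ (nsmulAddMonoidHom p : B →+ B).ker
  have hfin := annihilator_finite I hI B hB hfg p hp T inf_le_left
  have hbot : (nsmulAddMonoidHom p : T →+ T).range = ⊥ := by
    rw [eq_bot_iff]
    rintro _ ⟨z, rfl⟩
    rw [AddSubgroup.mem_bot]
    apply Subtype.ext
    exact z.2.2
  have hTfin : Finite T := by
    apply Finite.of_injective
      (fun z : T => (QuotientAddGroup.mk z : T ⧸ (nsmulAddMonoidHom p : T →+ T).range))
    intro z w h
    have h1 := QuotientAddGroup.eq.mp h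
    rw [hbot, AddSubgroup.mem_bot] at h1
    exact neg_add_eq_zero.mp h1
  have hT : ∀ k, (⟨q (t k), t k, ht k, rfl⟩ : B) ∈ T := by
    intro k
    refine ⟨hz k, ?_⟩
    apply Subtype.ext
    change p • q (t k) = 0
    rw [← map_nsmul]
    exact hq _ (Or.inr ⟨k, Or.inr rfl⟩)
  let c : ℕ → T := fun k => ⟨_, hT k⟩
  obtain ⟨k, l, hkl, hc⟩ := Finite.exists_ne_map_eq_of_infinite c
  have hc' : ∀ k l, c k = c l → q (t k) = q (t l) := by
    intro k l h
    exact congrArg (fun x : T => ((x : B) : R)) h
  rcases lt_or_gt_of_ne hkl with h | h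
  · exact ⟨k, l, h, hc' k l hc⟩
  · exact ⟨l, k, h, hc' l k hc.symm⟩

theorem sequence_form (I : Set (FreeAlgebra ℤ ℕ)) (h0 : ∀ f ∈ I, constTerm f = 0)
    (hI : LocallyResiduallyFinite I) (p : ℕ) (hp : p.Prime) (n : ℕ)
    (t : ℕ → FreeAlgebra ℤ (Fin n)) (ht : ∀ k, constTerm (t k) = 0) :
    ∃ k l, k < l ∧ t k - t l ∈ TwoSidedIdeal.span (values I n ∪ products p t) := by
  obtain ⟨R, _, q, hq⟩ := exists_quotient (TwoSidedIdeal.span (values I n ∪ products p t))
  obtain ⟨k, l, hkl, h⟩ := seq_core I h0 hI p hp n t ht R q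
    (fun w hw => (hq w).mpr (TwoSidedIdeal.subset_span hw))
  refine ⟨k, l, hkl, ?_⟩
  rw [← hq, map_sub, h, sub_self]

/-- A locally residually finite variety of rings does not contain all rings with `x[y,z]t = 0`
and `p x = 0`. -/
theorem not_contains (I : Set (FreeAlgebra ℤ ℕ)) (hI : LocallyResiduallyFinite I) (p : ℕ)
    (hp : p.Prime) :
    ∃ (A : Type) (_ : NonUnitalRing A), (∀ x y z t : A, x * (y * z - z * y) * t = 0) ∧
      (∀ x : A, p • x = 0) ∧ ¬ InVariety I A := by
  have : Fact p.Prime := ⟨hp⟩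
  have hchar : ∀ x : RF.E (ZMod p), p • x = 0 := by
    intro x
    have h1 : (p : ZMod p) • x = 0 := by rw [CharP.cast_eq_zero, zero_smul]
    rwa [Nat.cast_smul_eq_nsmul] at h1
  refine ⟨RF.E (ZMod p), inferInstance, RF.E_identity (ZMod p), hchar, ?_⟩
  intro h
  have hfg : FinGen (RF.E (ZMod p)) := by
    obtain ⟨s, hs⟩ := RF.E_fg (ZMod p)
    refine ⟨s, ?_⟩
    rw [eq_top_iff]
    have h1 : NonUnitalAlgebra.adjoin (ZMod p) (s : Set (RF.E (ZMod p))) ≤
        ({ NonUnitalSubring.closure (s : Set (RF.E (ZMod p))) with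
            smul_mem' := by
              intro c x hx
              have h2 : c • x = c.val • x := by
                rw [← Nat.cast_smul_eq_nsmul (ZMod p), ZMod.natCast_zmod_val]
              have hx' : x ∈ NonUnitalSubring.closure (s : Set (RF.E (ZMod p))) := hx
              have h3 := nsmul_mem hx' c.val
              rw [h2]
              exact h3 } : NonUnitalSubalgebra (ZMod p) (RF.E (ZMod p))) :=
      NonUnitalAlgebra.adjoin_le NonUnitalSubring.subset_closure
    rw [hs] at h1
    intro x _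
    exact h1 (trivial : x ∈ (⊤ : NonUnitalSubalgebra (ZMod p) (RF.E (ZMod p))))
  have hfin := annihilator_finite I hI _ h hfg p hp (annihilator (RF.E (ZMod p))) le_rfl
  have hbot : (nsmulAddMonoidHom p :
      annihilator (RF.E (ZMod p)) →+ annihilator (RF.E (ZMod p))).range = ⊥ := by
    rw [eq_bot_iff]
    rintro _ ⟨z, rfl⟩
    rw [AddSubgroup.mem_bot]
    apply Subtype.ext
    exact hchar z
  have hTfin : Finite (annihilator (RF.E (ZMod p))) := by
    apply Finite.of_injective
      (fun z : annihilator (RF.E (ZMod p)) => (QuotientAddGroup.mk z :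
        annihilator (RF.E (ZMod p)) ⧸ (nsmulAddMonoidHom p :
          annihilator (RF.E (ZMod p)) →+ annihilator (RF.E (ZMod p))).range))
    intro z w h
    have h1 := QuotientAddGroup.eq.mp h
    rw [hbot, AddSubgroup.mem_bot] at h1
    exact neg_add_eq_zero.mp h1
  exact RF.E_ann (ZMod p) hTfin

end Pool.Agent.Helper844.RFRing
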